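import Mathlib

/-!
# Sums of reciprocals of primes in a window `(l^(1-σ), l]`
-/

set_option autoImplicit false

open Finset

namespace Pool.Agent.H534.NV

/-- a dyadic block of primes -/
theorem blk (j : ℕ) (hj : 1 ≤ j) (T : Finset ℕ) (hT : ∀ p ∈ T, p.Prime ∧ Nat.log 2 p = j) :
    ∑ p ∈ T, (1 : ℝ) / p ≤ 4 / j := by
  have h1 : ∀ p ∈ T, 2 ^ j ≤ p ∧ p < 2 ^ (j + 1) := by
    intro p hp
    obtain ⟨hp1, hp2⟩ := hT p hp
    constructor
    · rw [← hp2]
      exact Nat.pow_log_le_self 2 hp1.ne_zero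
    · rw [← hp2]
      exact Nat.lt_pow_succ_log_self (by norm_num) p
  have h2 : (2 ^ j) ^ T.card ≤ 4 ^ (2 ^ (j + 1)) := by
    calc (2 ^ j) ^ T.card = ∏ _p ∈ T, 2 ^ j := by rw [prod_const]
      _ ≤ ∏ p ∈ T, p := prod_le_prod' fun p hp => (h1 p hp).1
      _ ≤ primorial (2 ^ (j + 1)) := by
          unfold primorial
          apply prod_le_prod_of_subset_of_one_le'
          · intro p hp
            rw [mem_filter, mem_range]
            exact ⟨by have := (h1 p hp).2; omega, (hT p hp).1⟩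
          · intro p hp _
            exact (mem_filter.1 hp).2.one_lt.le
      _ ≤ 4 ^ (2 ^ (j + 1)) := primorial_le_four_pow _
  have h3 : j * T.card ≤ 4 * 2 ^ j := by
    have e1 : (4 : ℕ) ^ (2 ^ (j + 1)) = 2 ^ (4 * 2 ^ j) := by
      rw [show (4 : ℕ) = 2 ^ 2 by norm_num, ← pow_mul]
      congr 1
      rw [pow_succ]
      ring
    rw [← pow_mul, e1] at h2
    exact (Nat.pow_le_pow_iff_right (by norm_num)).1 h2
  have hj0 : (0 : ℝ) < j := by exact_mod_cast hj
  have h3' : (j : ℝ) * T.card ≤ 4 * 2 ^ j := by exact_mod_cast h3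
  calc ∑ p ∈ T, (1 : ℝ) / p ≤ ∑ _p ∈ T, (1 : ℝ) / 2 ^ j := by
        apply sum_le_sum
        intro p hp
        apply one_div_le_one_div_of_le (by positivity)
        exact_mod_cast (h1 p hp).1
    _ = T.card / 2 ^ j := by rw [sum_const, nsmul_eq_mul, mul_one_div]
    _ ≤ 4 / j := by
        rw [div_le_div_iff₀ (by positivity) hj0]
        linarith

/-- the window -/
theorem win_sum (σ : ℝ) (hσ : 0 < σ) (hσ2 : σ ≤ 1 / 2) : ∃ l₀ : ℝ, 1 ≤ l₀ ∧ ∀ l s : ℝ, l₀ ≤ l → l ^ (1 - σ) ≤ s →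
    ∀ T : Finset ℕ, (∀ p ∈ T, p.Prime ∧ s < (p : ℝ) ∧ (p : ℝ) ≤ l) → ∑ p ∈ T, (1 : ℝ) / p ≤ 32 * σ := by
  refine ⟨Real.exp (8 / σ), Real.one_le_exp (by positivity), ?_⟩
  intro l s hl hs T hT
  have hl1 : 1 < l := lt_of_lt_of_le (Real.one_lt_exp_iff.2 (by positivity)) hl
  have hl0 : 0 < l := by linarith
  have hlog : 8 / σ ≤ Real.log l := (Real.le_log_iff_exp_le hl0).2 hl
  have hlog8 : 8 ≤ σ * Real.log l := by
    rw [div_le_iff₀ hσ] at hlog
    linarith
  have hlog0 : 0 < Real.log l := by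
    have : 0 < 8 / σ := by positivity
    linarith
  have hlog2 : 0.6931471803 < Real.log 2 := Real.log_two_gt_d9
  have hlog2' : Real.log 2 < 0.6931471808 := Real.log_two_lt_d9
  obtain ⟨y, hy⟩ : ∃ y : ℝ, y = Real.log l / Real.log 2 := ⟨_, rfl⟩
  have hy0 : Real.log l ≤ y := by
    rw [hy, le_div_iff₀ (by linarith)]
    nlinarith
  have hyσ : 8 ≤ σ * y := by nlinarith
  have hy16 : 16 ≤ y := by nlinarith
  -- the logs of the primes
  have hb : ∀ p ∈ T, (1 - σ) * y - 1 ≤ (Nat.log 2 p : ℝ) ∧ (Nat.log 2 p : ℝ) ≤ y := by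
    intro p hp
    obtain ⟨hp1, hp2, hp3⟩ := hT p hp
    have hp0 : (0 : ℝ) < p := by exact_mod_cast hp1.pos
    constructor
    · have h1 : (p : ℝ) < 2 ^ (Nat.log 2 p + 1) := by
        exact_mod_cast Nat.lt_pow_succ_log_self (by norm_num) p
      have h2 : l ^ (1 - σ) < 2 ^ (Nat.log 2 p + 1) := lt_of_le_of_lt hs (hp2.trans h1)
      have h3 := Real.log_lt_log (Real.rpow_pos_of_pos hl0 _) h2
      rw [Real.log_rpow hl0, Real.log_pow] at h3
      push_cast at h3
      have h4 : (1 - σ) * y < (Nat.log 2 p : ℝ) + 1 := by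
        rw [hy, ← mul_div_assoc, div_lt_iff₀ (by linarith)]
        exact h3
      linarith
    · have h1 : (2 : ℝ) ^ (Nat.log 2 p) ≤ p := by
        exact_mod_cast Nat.pow_log_le_self 2 hp1.ne_zero
      have h3 := Real.log_le_log (by positivity) (h1.trans hp3)
      rw [Real.log_pow] at h3
      rw [hy, le_div_iff₀ (by linarith)]
      exact h3
  obtain ⟨A, hA⟩ : ∃ A : ℕ, A = ⌈(1 - σ) * y - 1⌉₊ := ⟨_, rfl⟩
  obtain ⟨B, hB⟩ : ∃ B : ℕ, B = ⌊y⌋₊ := ⟨_, rfl⟩
  have hmaps : ∀ p ∈ T, Nat.log 2 p ∈ Icc A B := by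
    intro p hp
    obtain ⟨h1, h2⟩ := hb p hp
    rw [mem_Icc, hA, hB]
    exact ⟨Nat.ceil_le.2 h1, Nat.le_floor h2⟩
  have hA1 : y / 4 ≤ A := by
    have h1 : (1 - σ) * y - 1 ≤ A := by rw [hA]; exact Nat.le_ceil _
    nlinarith
  have hAnat : 1 ≤ A := by
    have : (1 : ℝ) ≤ A := by linarith
    exact_mod_cast this
  rw [← sum_fiberwise_of_maps_to hmaps]
  have hcard : ((Icc A B).card : ℝ) ≤ 2 * (σ * y) := by
    rw [Nat.card_Icc]
    have h1 : (1 - σ) * y - 1 ≤ A := by rw [hA]; exact Nat.le_ceil _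
    have h2 : (B : ℝ) ≤ y := by
      rw [hB]
      exact Nat.floor_le (by linarith)
    rcases le_total A (B + 1) with h | h
    · rw [Nat.cast_sub h]
      push_cast
      linarith
    · rw [Nat.sub_eq_zero_of_le h]
      push_cast
      linarith
  calc ∑ j ∈ Icc A B, ∑ p ∈ T with Nat.log 2 p = j, (1 : ℝ) / p ≤ ∑ _j ∈ Icc A B, 16 / y := by
        apply sum_le_sum
        intro j hj
        rw [mem_Icc] at hj
        have hj1 : 1 ≤ j := hAnat.trans hj.1
        refine (blk j hj1 _ fun p hp => ?_).trans ?_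
        · rw [mem_filter] at hp
          exact ⟨(hT p hp.1).1, hp.2⟩
        · have hjr : (A : ℝ) ≤ j := by exact_mod_cast hj.1
          rw [div_le_div_iff₀ (by linarith) (by linarith)]
          linarith
    _ = ((Icc A B).card : ℝ) * (16 / y) := by rw [sum_const, nsmul_eq_mul]
    _ ≤ (2 * (σ * y)) * (16 / y) := by gcongr
    _ = 32 * σ := by
        have : y ≠ 0 := by linarith
        field_simp
        ring

end Pool.Agent.H534.NV
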