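import Pool.Agent.H534.RT.Base
import Pool.Agent.H534.NV.Win

/-!
# The local factors (adapted from `Y833/RSZ/LOC.lean`): only the primes up to `(log H)^(1-σ)` divide the modulus
-/

set_option autoImplicit false

open Finset

namespace Pool.Agent.H534.NV

open Pool.Agent.Y677.RSZ hiding Sys V_pos fac_pos V_lower
open Pool.Agent.H534.RT hiding V_pos V_lower
open Pool.Agent.Y833.RSZ
open Pool.Agent.TH423.SH (PS)
open Pool.Agent.Y394.PSP (sum_inv_le sum_inv_sq_le pow_le_quad)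

/-- the local factors -/
theorem LOCv (g m : ℕ) (η : ℝ) (hη : 0 < η) : ∃ σ₀ : ℝ, 0 < σ₀ ∧ σ₀ ≤ 1 / 2 ∧ ∃ l₀ : ℝ, ∀ (s : ℝ) (W N H : ℕ),
  l₀ ≤ Real.log H → Real.log H ^ (1 - σ₀) ≤ s →
  1 ≤ W → 1 ≤ N → (∀ p : ℕ, p.Prime → (p : ℝ) ≤ s → p ∣ W) → W * N ≤ H →
  ∀ F : ℤ → ℤ, SysU g H W F → ∀ (t : Fin m → ℕ) (b : ℕ), Function.Injective t →
  (∀ i, 1 ≤ t i ∧ t i ≤ N) → ∀ R : ℕ,
    |∏ p ∈ PS W R, (1 - (rhoT F W b t p : ℝ) / p) - V F W R ^ m| ≤ η * V F W R ^ m := by
  classical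
  set θ : ℝ := Real.log (1 + η) with hθ
  have hθ0 : 0 < θ := Real.log_pos (by linarith)
  set E : ℝ := 8 * (m : ℝ) ^ 2 * (g : ℝ) ^ 2 + 2 * (m : ℝ) ^ 3 * (g : ℝ) ^ 2 with hE
  have hE0 : 0 ≤ E := by rw [hE]; positivity
  obtain ⟨σ₀, hσ₀d⟩ : ∃ σ₀ : ℝ, σ₀ = min (1 / 2) (θ / (128 * m * g + 1)) := ⟨_, rfl⟩
  have hσ₀ : 0 < σ₀ := by
    rw [hσ₀d]
    exact lt_min (by norm_num) (by positivity)
  have hσ₀2 : σ₀ ≤ 1 / 2 := hσ₀d ▸ min_le_left _ _
  have hσ₀θ : 64 * (m : ℝ) * g * σ₀ ≤ θ / 2 := by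
    have h1 : σ₀ ≤ θ / (128 * m * g + 1) := hσ₀d ▸ min_le_right _ _
    rw [le_div_iff₀ (by positivity)] at h1
    nlinarith
  obtain ⟨lw, hlw1, hwin⟩ := win_sum σ₀ hσ₀ hσ₀2
  refine ⟨σ₀, hσ₀, hσ₀2, max (max lw (Real.exp (2 * E / θ + 1))) ((2 * m * g + 2 * g + 2) ^ 2), ?_⟩
  intro s W N H hl₀ hls hW1 hN1 hWs hWNH F hF t b ht ht1 R
  obtain ⟨l, hl⟩ : ∃ l : ℝ, l = Real.log H := ⟨_, rfl⟩
  rw [← hl] at hl₀ hls
  have hl0w : lw ≤ l := ((le_max_left _ _).trans (le_max_left _ _)).trans hl₀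
  have hl1 : Real.exp (2 * E / θ + 1) ≤ l := ((le_max_right _ _).trans (le_max_left _ _)).trans hl₀
  have hl2 : (2 * (m : ℝ) * g + 2 * g + 2) ^ 2 ≤ l := (le_max_right _ _).trans hl₀
  have hm0 : (0 : ℝ) ≤ m := Nat.cast_nonneg m
  have hg0 : (0 : ℝ) ≤ g := Nat.cast_nonneg g
  have hmg0 : (0 : ℝ) ≤ (m : ℝ) * g := mul_nonneg hm0 hg0
  have hl1' : 1 < l := by nlinarith
  have hlpos : 0 < l := by linarith
  have hsq : l ^ (1 / 2 : ℝ) ≤ s := by
    refine le_trans ?_ hls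
    apply Real.rpow_le_rpow_of_exponent_le hl1'.le
    linarith
  have hs2 : 2 * (m : ℝ) * g + 2 * g + 2 ≤ s := by
    refine le_trans ?_ hsq
    rw [← Real.sqrt_eq_rpow]
    exact Real.le_sqrt_of_sq_le hl2
  have hs1' : 1 < s := by linarith
  have hs0 : 0 < s := by linarith
  have hlogl : 2 * E / θ + 1 ≤ Real.log l := by
    rw [Real.le_log_iff_exp_le hlpos]
    exact hl1
  have hlogl0 : 0 < Real.log l := Real.log_pos hl1'
  have hlogs : Real.log l ≤ 2 * Real.log s := by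
    have h1 := Real.log_le_log (by positivity) hsq
    rw [Real.log_rpow hlpos] at h1
    linarith
  have hlog0 : 0 < Real.log s := Real.log_pos hs1'
  -- the primes in `PS W R` are larger than `s`
  have hPS : ∀ p ∈ PS W R, p.Prime ∧ ¬ p ∣ W ∧ s < (p : ℝ) := by
    intro p hp
    unfold PS at hp
    rw [mem_filter] at hp
    refine ⟨hp.2.1, hp.2.2, ?_⟩
    by_contra h
    exact hp.2.2 (hWs p hp.2.1 (not_lt.1 h))
  set a : ℕ → ℝ := fun p => 1 - (rhoT F W b t p : ℝ) / p with ha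
  set x : ℕ → ℝ := fun p => (rt F p : ℝ) / p with hxdef
  set bb : ℕ → ℝ := fun p => (1 - x p) ^ m with hb
  obtain ⟨Δ, hΔ⟩ := hF.coll
  -- the differences
  set hh : Fin m × Fin m → ℕ := fun q => W * ((t q.1 : ℤ) - (t q.2 : ℤ)).natAbs with hhh
  have hhpos : ∀ q ∈ (univ : Finset (Fin m)).offDiag, 1 ≤ hh q ∧ hh q ≤ H ∧ W ∣ hh q := by
    intro q hq
    rw [mem_offDiag] at hq
    have h1 : 1 ≤ ((t q.1 : ℤ) - (t q.2 : ℤ)).natAbs := by
      rw [Nat.one_le_iff_ne_zero]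
      intro h
      apply hq.2.2
      apply ht
      omega
    have h2 : ((t q.1 : ℤ) - (t q.2 : ℤ)).natAbs ≤ N := by
      have := ht1 q.1
      have := ht1 q.2
      omega
    refine ⟨?_, ?_, ?_⟩
    · calc 1 ≤ W := hW1
        _ = W * 1 := (mul_one W).symm
        _ ≤ _ := Nat.mul_le_mul_left W h1
    · exact (Nat.mul_le_mul_left W h2).trans hWNH
    · exact Dvd.intro _ rfl
  set D : ℕ := ∏ q ∈ (univ : Finset (Fin m)).offDiag, Δ (hh q) with hD
  have hD0 : D ≠ 0 := by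
    rw [hD, Finset.prod_ne_zero_iff]
    intro q hq
    obtain ⟨q1, q2, q3⟩ := hhpos q hq
    have := (hΔ (hh q) q1 q2 q3).1
    omega
  have hlogD : Real.log D ≤ (m : ℝ) ^ 2 * g * l := by
    rw [hD, Nat.cast_prod, Real.log_prod]
    · have h1 : ∀ q ∈ (univ : Finset (Fin m)).offDiag, Real.log (Δ (hh q)) ≤ g * l := by
        intro q hq
        obtain ⟨q1, q2, q3⟩ := hhpos q hq
        obtain ⟨h2, h4, _⟩ := hΔ (hh q) q1 q2 q3
        have h5 : Real.log (Δ (hh q)) ≤ Real.log ((H ^ g : ℕ) : ℝ) := by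
          apply Real.log_le_log
          · exact_mod_cast h2
          · exact_mod_cast h4
        refine h5.trans ?_
        push_cast
        rw [Real.log_pow, ← hl]
      calc ∑ q ∈ (univ : Finset (Fin m)).offDiag, Real.log (Δ (hh q))
          ≤ ∑ _q ∈ (univ : Finset (Fin m)).offDiag, (g : ℝ) * l := Finset.sum_le_sum h1
        _ = ((univ : Finset (Fin m)).offDiag.card : ℝ) * (g * l) := by
            rw [Finset.sum_const, nsmul_eq_mul]
        _ ≤ (m : ℝ) ^ 2 * (g * l) := by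
            apply mul_le_mul_of_nonneg_right _ (by positivity)
            rw [offDiag_card]
            simp only [card_univ, Fintype.card_fin]
            have : m * m - m ≤ m ^ 2 := by
              rw [sq]; omega
            exact_mod_cast this
        _ = _ := by ring
    · intro q hq
      have := (Finset.prod_ne_zero_iff.1 hD0) q hq
      exact_mod_cast this
  -- bounds for the factors
  have hx : ∀ p ∈ PS W R, 0 ≤ x p ∧ x p ≤ g / p ∧ x p ≤ 1 / 2 ∧ (m : ℝ) * x p ≤ 1 / 2 := by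
    intro p hp
    obtain ⟨h1, h2, h3⟩ := hPS p hp
    have hp0 : (0 : ℝ) < p := by linarith
    have hr : (rt F p : ℝ) ≤ g := by exact_mod_cast (hF.root p h1).1
    have hr0 : (0 : ℝ) ≤ rt F p := Nat.cast_nonneg _
    have hxp : x p ≤ g / p := div_le_div_of_nonneg_right hr hp0.le
    refine ⟨div_nonneg hr0 hp0.le, hxp, ?_, ?_⟩
    · refine hxp.trans ?_
      rw [div_le_iff₀ hp0]
      linarith
    · calc (m : ℝ) * x p ≤ m * (g / p) := mul_le_mul_of_nonneg_left hxp hm0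
        _ = (m * g) / p := by ring
        _ ≤ 1 / 2 := by
          rw [div_le_iff₀ hp0]
          linarith
  have hb1 : ∀ p ∈ PS W R, 1 - (m : ℝ) * x p ≤ bb p := by
    intro p hp
    obtain ⟨h0, _, h1, h2⟩ := hx p hp
    have := one_add_mul_le_pow (a := -(x p)) (by linarith) m
    simp only [hb]
    calc 1 - (m : ℝ) * x p = 1 + (m : ℝ) * (-(x p)) := by ring
      _ ≤ (1 + -(x p)) ^ m := this
      _ = (1 - x p) ^ m := by ring
  have hb2 : ∀ p ∈ PS W R, 1 / 2 ≤ bb p := by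
    intro p hp
    have := (hx p hp).2.2.2
    have := hb1 p hp
    linarith
  have hb3 : ∀ p ∈ PS W R, bb p ≤ 1 - (m : ℝ) * x p + (m : ℝ) ^ 2 * (x p) ^ 2 := by
    intro p hp
    obtain ⟨h0, _, h1, h2⟩ := hx p hp
    exact pow_le_quad m (x p) h0 (by linarith)
  have hb4 : ∀ p ∈ PS W R, bb p ≤ 1 := by
    intro p hp
    obtain ⟨h0, _, h1, h2⟩ := hx p hp
    simp only [hb]
    exact pow_le_one₀ (by linarith) (by linarith)
  have ha1 : ∀ p ∈ PS W R, 1 - (m : ℝ) * x p ≤ a p ∧ a p ≤ 1 := by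
    intro p hp
    obtain ⟨h1, h2, h3⟩ := hPS p hp
    have hp0 : (0 : ℝ) < p := by linarith
    have hr : (rhoT F W b t p : ℝ) ≤ m * rt F p := by
      exact_mod_cast rhoT_le h1 (hF.per p h1) W b t h2
    have hr0 : (0 : ℝ) ≤ rhoT F W b t p := Nat.cast_nonneg _
    simp only [ha, hxdef]
    constructor
    · have : (rhoT F W b t p : ℝ) / p ≤ (m * rt F p) / p := div_le_div_of_nonneg_right hr hp0.le
      rw [mul_div_assoc] at this
      linarith
    · have := div_nonneg hr0 hp0.le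
      linarith
  have ha2 : ∀ p ∈ PS W R, ¬ p ∣ D → a p = 1 - (m : ℝ) * x p := by
    intro p hp hd
    obtain ⟨hp1, hp2, hp3⟩ := hPS p hp
    have hr : rhoT F W b t p = m * rt F p := by
      apply rhoT_eq hp1 (hF.per p hp1) W b t hp2
      intro i j hij r h1 h2
      apply hd
      have hq : (i, j) ∈ (univ : Finset (Fin m)).offDiag := by
        rw [mem_offDiag]; exact ⟨mem_univ _, mem_univ _, hij⟩
      have hΔd : p ∣ Δ (hh (i, j)) := by
        obtain ⟨q1, q2, q3⟩ := hhpos (i, j) hq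
        obtain ⟨_, _, h3⟩ := hΔ (hh (i, j)) q1 q2 q3
        rcases le_total (t i) (t j) with hle | hle
        · apply h3 p hp1 _ h1
          have e : ((W * (r + t i) + b : ℕ) : ℤ) + (hh (i, j) : ℤ) =
              ((W * (r + t j) + b : ℕ) : ℤ) := by
            simp only [hhh]
            have e1 : ((((t i : ℤ) - (t j : ℤ)).natAbs : ℕ) : ℤ) = (t j : ℤ) - t i := by omega
            push_cast [e1]
            ring
          rw [e]
          exact h2
        · apply h3 p hp1 _ h2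
          have e : ((W * (r + t j) + b : ℕ) : ℤ) + (hh (i, j) : ℤ) =
              ((W * (r + t i) + b : ℕ) : ℤ) := by
            simp only [hhh]
            have e1 : ((((t i : ℤ) - (t j : ℤ)).natAbs : ℕ) : ℤ) = (t i : ℤ) - t j := by omega
            push_cast [e1]
            ring
          rw [e]
          exact h1
      exact hΔd.trans (Finset.dvd_prod_of_mem (fun q => Δ (hh q)) hq)
    simp only [ha, hr, hxdef]
    push_cast
    ring
  -- the relative error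
  set f : ℕ → ℝ := fun p => a p / bb p - 1 with hf
  have hbpos : ∀ p ∈ PS W R, 0 < bb p := fun p hp => by
    have := hb2 p hp
    linarith
  have hf1 : ∀ p ∈ PS W R, |f p| ≤ 2 * |a p - bb p| := by
    intro p hp
    have h0 := hbpos p hp
    have h1 : f p = (a p - bb p) / bb p := by
      simp only [hf]
      field_simp
    rw [h1, abs_div, abs_of_pos h0, div_le_iff₀ h0]
    have h2 := hb2 p hp
    have h3 := abs_nonneg (a p - bb p)
    nlinarith
  have hf2 : ∀ p ∈ PS W R, |f p| ≤ 2 * (m : ℝ) ^ 2 * (g : ℝ) ^ 2 * (1 / (p : ℝ) ^ 2) +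
      (if p ∣ D then 2 * (m : ℝ) * g * (1 / p) else 0) := by
    intro p hp
    obtain ⟨h0, hg1, h1, h2⟩ := hx p hp
    have hp0 : (0 : ℝ) < p := by have := (hPS p hp).2.2; linarith
    have e1 := hb1 p hp
    have e3 := hb3 p hp
    have e4 := hb4 p hp
    obtain ⟨e5, e6⟩ := ha1 p hp
    refine (hf1 p hp).trans ?_
    have hsq : (m : ℝ) ^ 2 * (x p) ^ 2 ≤ (m : ℝ) ^ 2 * (g : ℝ) ^ 2 * (1 / (p : ℝ) ^ 2) := by
      have : (x p) ^ 2 ≤ (g / p : ℝ) ^ 2 := pow_le_pow_left₀ h0 hg1 2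
      calc (m : ℝ) ^ 2 * (x p) ^ 2 ≤ (m : ℝ) ^ 2 * (g / p : ℝ) ^ 2 :=
            mul_le_mul_of_nonneg_left this (by positivity)
        _ = _ := by ring
    split_ifs with hd
    · have h3 : |a p - bb p| ≤ (m : ℝ) * x p := by
        rw [abs_le]
        constructor <;> linarith
      have h4 : 0 ≤ 2 * (m : ℝ) ^ 2 * (g : ℝ) ^ 2 * (1 / (p : ℝ) ^ 2) := by positivity
      have h5 : (m : ℝ) * x p ≤ m * g * (1 / p) := by
        calc (m : ℝ) * x p ≤ m * (g / p) := mul_le_mul_of_nonneg_left hg1 hm0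
          _ = _ := by ring
      linarith
    · have e7 := ha2 p hp hd
      have h3 : |a p - bb p| ≤ (m : ℝ) ^ 2 * (x p) ^ 2 := by
        rw [abs_le]
        constructor
        · linarith
        · have : 0 ≤ (m : ℝ) ^ 2 * (x p) ^ 2 := by positivity
          linarith
      linarith
  have hsum : ∑ p ∈ PS W R, ‖f p‖ ≤ θ := by
    have h1 : ∑ p ∈ PS W R, ‖f p‖ ≤ ∑ p ∈ PS W R, (2 * (m : ℝ) ^ 2 * (g : ℝ) ^ 2 *
        (1 / (p : ℝ) ^ 2) + (if p ∣ D then 2 * (m : ℝ) * g * (1 / p) else 0)) := by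
      apply Finset.sum_le_sum
      intro p hp
      rw [Real.norm_eq_abs]
      exact hf2 p hp
    rw [Finset.sum_add_distrib, ← Finset.mul_sum, ← Finset.sum_filter, ← Finset.mul_sum] at h1
    have h2 : ∑ p ∈ PS W R, (1 : ℝ) / (p : ℝ) ^ 2 ≤ 2 / s :=
      sum_inv_sq_le hs1' _ (fun p hp => (hPS p hp).2.2)
    have h3 : ∑ p ∈ (PS W R).filter (fun p => p ∣ D), (1 : ℝ) / p ≤
        32 * σ₀ + Real.log D / (l * Real.log l) := by
      rw [← sum_filter_add_sum_filter_not ((PS W R).filter (fun p => p ∣ D)) (fun p : ℕ => (p : ℝ) ≤ l)]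
      apply add_le_add
      · apply hwin l s hl0w hls
        intro p hp
        rw [mem_filter, mem_filter] at hp
        exact ⟨(hPS p hp.1.1).1, (hPS p hp.1.1).2.2, hp.2⟩
      · apply sum_inv_le hl1' D hD0
        intro p hp
        rw [mem_filter, mem_filter] at hp
        exact ⟨(hPS p hp.1.1).1, not_le.1 hp.2, hp.1.2⟩
    have h4 : Real.log D / (l * Real.log l) ≤ ((m : ℝ) ^ 2 * g) / Real.log l := by
      rw [div_le_div_iff₀ (by positivity) hlogl0]
      calc Real.log D * Real.log l ≤ ((m : ℝ) ^ 2 * g * l) * Real.log l :=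
            mul_le_mul_of_nonneg_right hlogD hlogl0.le
        _ = _ := by ring
    have h5 : 2 / s ≤ 4 / Real.log l := by
      rw [div_le_div_iff₀ hs0 hlogl0]
      have := Real.log_le_sub_one_of_pos hs0
      linarith
    have h6 : 2 * (m : ℝ) ^ 2 * (g : ℝ) ^ 2 * (∑ p ∈ PS W R, (1 : ℝ) / (p : ℝ) ^ 2) ≤
        2 * (m : ℝ) ^ 2 * (g : ℝ) ^ 2 * (4 / Real.log l) :=
      mul_le_mul_of_nonneg_left (h2.trans h5) (by positivity)
    have h7 : 2 * (m : ℝ) * g * (∑ p ∈ (PS W R).filter (fun p => p ∣ D), (1 : ℝ) / p) ≤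
        2 * (m : ℝ) * g * (32 * σ₀ + ((m : ℝ) ^ 2 * g) / Real.log l) :=
      mul_le_mul_of_nonneg_left (h3.trans (by linarith)) (by positivity)
    have h8 : 2 * (m : ℝ) ^ 2 * (g : ℝ) ^ 2 * (4 / Real.log l) +
        2 * (m : ℝ) * g * (((m : ℝ) ^ 2 * g) / Real.log l) = E / Real.log l := by
      rw [hE]
      field_simp
      ring
    have h9 : E / Real.log l ≤ θ / 2 := by
      rw [div_le_div_iff₀ hlogl0 (by norm_num)]
      have h10 : 2 * E / θ ≤ Real.log l := by linarith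
      rw [div_le_iff₀ hθ0] at h10
      linarith
    have h11 : 2 * (m : ℝ) * g * (32 * σ₀ + ((m : ℝ) ^ 2 * g) / Real.log l) =
        64 * m * g * σ₀ + 2 * (m : ℝ) * g * (((m : ℝ) ^ 2 * g) / Real.log l) := by ring
    linarith
  have hprod1 : ∏ p ∈ PS W R, (1 + f p) = (∏ p ∈ PS W R, a p) / ∏ p ∈ PS W R, bb p := by
    rw [← Finset.prod_div_distrib]
    apply Finset.prod_congr rfl
    intro p _
    simp only [hf]
    ring
  have hprodb : ∏ p ∈ PS W R, bb p = V F W R ^ m := by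
    unfold V
    rw [← Finset.prod_pow]
  have hpos : 0 < V F W R ^ m := by
    rw [← hprodb]
    exact Finset.prod_pos hbpos
  have hnorm := Finset.norm_prod_one_add_sub_one_le (PS W R) f
  rw [hprod1, hprodb, Real.norm_eq_abs] at hnorm
  have hexp : Real.exp (∑ p ∈ PS W R, ‖f p‖) - 1 ≤ η := by
    have : Real.exp (∑ p ∈ PS W R, ‖f p‖) ≤ Real.exp θ := Real.exp_le_exp.2 hsum
    rw [hθ, Real.exp_log (by linarith)] at this
    linarith
  have hfin : |∏ p ∈ PS W R, a p - V F W R ^ m| =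
      |(∏ p ∈ PS W R, a p) / V F W R ^ m - 1| * V F W R ^ m := by
    rw [← abs_of_pos hpos, ← abs_mul, abs_of_pos hpos, sub_mul, one_mul,
      div_mul_cancel₀ _ hpos.ne']
  change |∏ p ∈ PS W R, a p - V F W R ^ m| ≤ η * V F W R ^ m
  rw [hfin]
  exact mul_le_mul_of_nonneg_right (hnorm.trans hexp) hpos.le

end Pool.Agent.H534.NV
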