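import Pool.Agent.H534.RT.NC
import Pool.Agent.H534.NV.LOC

/-!
# The majorant, with a modulus of the primes up to `(log H)^(1-σ)`
-/

set_option autoImplicit false

open Finset Filter

namespace Pool.Agent.H534.NV

open Pool.Agent.TH423.SH (PS PIj prc)
open Pool.Agent.Y917.PSP (TT Dl wt mem_TT Dl_pos div_bound final_real aux3 aux6 aux9 aux11 aux13 pow_eq_exp ev_exp_sqrt)
open Pool.Agent.Y677.RSZ hiding Sys V_pos fac_pos V_lower
open Pool.Agent.Y814.RSZ hiding V_pos PR_pos V_low PR_low PR_mer prod_low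
open Pool.Agent.H534.RT
open Pool.Agent.H534.RS (V_split' cnt_cop' final2 tt_count ncop_sum bdK)

theorem majV (h1 : S_C1') (h2 : S_SEL) (h4 : S_CLS) (h5 : S_MER) (g M₁ : ℕ) (δ : ℝ) (hδ : 0 < δ) :
    ∃ c : ℝ, 0 < c ∧ ∀ η₀ : ℝ, 0 < η₀ → ∃ σ : ℝ, 0 < σ ∧ σ ≤ 1 / 2 ∧ ∃ B H₀ : ℕ,
    ∀ (F : ℤ → ℤ) (Y H W N : ℕ), SysU g H W F → H₀ ≤ H →
    (∀ n ∈ Ioc Y (Y + H), F (n : ℤ) ≠ 0 ∧ |F (n : ℤ)| ≤ (H : ℤ) ^ g) →
    1 ≤ W → 1 ≤ N → W * N ≤ H → (∀ p : ℕ, p.Prime → (p : ℝ) ≤ Real.log H ^ (1 - σ) → p ∣ W) →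
    (∀ p : ℕ, p.Prime → p ∣ W → (p : ℝ) ≤ Real.log H) →
    ∃ ν : ℕ → ℝ, (∀ n, 0 ≤ ν n) ∧ (∀ n ∈ Ioc Y (Y + H), ν n ≤ Real.log H ^ B) ∧
      (∀ n ∈ Ioc Y (Y + H), (∀ p : ℕ, p.Prime → (p : ℝ) ≤ (H : ℝ) ^ δ → ¬ (p : ℤ) ∣ F (n : ℤ)) →
        c ≤ ν n * V F W H ∧ ν n * V F W H ≤ 1) ∧
      ∀ m ≤ M₁, ∀ t : Fin m → ℕ, Function.Injective t → (∀ i, 1 ≤ t i ∧ t i ≤ N) →
        ∀ b M₀ L : ℕ, (H : ℝ) ^ (1 / 2 : ℝ) ≤ L →
          (∀ K ∈ Ioc M₀ (M₀ + L), ∀ i, W * (K + t i) + b ∈ Ioc Y (Y + H)) →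
          |(∑ K ∈ Ioc M₀ (M₀ + L), ∏ i, ν (W * (K + t i) + b)) / L - 1| ≤ η₀ := by
  classical
  obtain ⟨C, hC1, hC⟩ := h1
  obtain ⟨CS, hCS, hSel⟩ := h2 g
  obtain ⟨M, hM⟩ : ∃ M, M = max M₁ 1 := ⟨_, rfl⟩
  have hM1 : 1 ≤ M := hM ▸ le_max_right _ _
  have hMM : M₁ ≤ M := hM ▸ le_max_left _ _
  have hMr : (1 : ℝ) ≤ M := by exact_mod_cast hM1
  have hMr0 : (0 : ℝ) < M := by linarith
  have hCr1 : (1 : ℝ) ≤ C := by exact_mod_cast hC1
  have hCr : (0 : ℝ) < C := by linarith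
  have hg0 : (0 : ℝ) ≤ g := Nat.cast_nonneg g
  obtain ⟨θ, hθd⟩ : ∃ θ, θ = min (1 / (64 * (C : ℝ) * M * (g + 1))) (δ / 2) := ⟨_, rfl⟩
  have hθ0 : 0 < θ := by rw [hθd]; exact lt_min (by positivity) (by positivity)
  have hθ1 : θ ≤ 1 / (64 * (C : ℝ) * M * (g + 1)) := hθd ▸ min_le_left _ _
  have hθ2 : θ ≤ δ / 2 := hθd ▸ min_le_right _ _
  have hθ3 : θ ≤ 1 := by
    refine hθ1.trans ?_
    rw [div_le_one (by positivity)]
    have e1 : 1 ≤ (C : ℝ) * M := by nlinarith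
    have e2 : 1 ≤ (C : ℝ) * M * (g + 1) := by nlinarith
    linarith
  obtain ⟨cM, hcM, hMer⟩ := h5 g (max 1 (2 / θ)) (le_max_left _ _)
  refine ⟨cM / CS, by positivity, fun η₀ hη₀ => ?_⟩
  obtain ⟨η, hηd⟩ : ∃ η, η = min η₀ 1 / 2 := ⟨_, rfl⟩
  have hη1 : η ≤ 1 := by
    rw [hηd]
    have := min_le_right η₀ 1
    linarith
  have hηη : η + η ≤ η₀ := by
    rw [hηd]
    have := min_le_left η₀ 1
    linarith
  have hη : 0 < η := by
    rw [hηd]
    have := lt_min hη₀ one_pos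
    linarith
  choose σ₀ hσ₀ hσ₀2 l₀ hl₀ using fun m => LOCv g m (η / 4) (by positivity)
  obtain ⟨i₀, hi₀, hmin⟩ := exists_min_image (range (M + 1)) σ₀ ⟨0, mem_range.2 (by omega)⟩
  obtain ⟨σ, hσd⟩ : ∃ σ, σ = σ₀ i₀ := ⟨_, rfl⟩
  have hσ : 0 < σ := hσd ▸ hσ₀ i₀
  have hσm : ∀ m, m ≤ M → σ ≤ σ₀ m := by
    intro m hm
    rw [hσd]
    exact hmin m (mem_range.2 (by omega))
  have hσ2 : σ ≤ 1 / 2 := (hσm 0 (by omega)).trans (hσ₀2 0)
  obtain ⟨s1, hs1⟩ : ∃ s1, s1 = ∑ m ∈ range (M + 1), |l₀ m| := ⟨_, rfl⟩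
  have hs1m : ∀ m, m ≤ M → l₀ m ≤ s1 := by
    intro m hm
    rw [hs1]
    exact (le_abs_self _).trans (single_le_sum (f := fun m => |l₀ m|) (fun _ _ => abs_nonneg _)
      (mem_range.2 (by omega)))
  obtain ⟨B1, R1, hR1⟩ := prc g (2 * (g + 1)).factorial (Nat.factorial_pos _)
    (fun p hp hpl => (Nat.Prime.dvd_factorial hp).2 hpl)
  obtain ⟨D, hD⟩ : ∃ D : ℕ, D = (2 * (4 + B1) + 1) * (64 * C * g * M) := ⟨_, rfl⟩
  obtain ⟨B', hB'⟩ : ∃ B' : ℕ, B' = 1 := ⟨_, rfl⟩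
  have hev := (Real.tendsto_log_atTop.comp tendsto_natCast_atTop_atTop).eventually
    ((asym M C g B1 B' (R1 + (2 * g + 2)) hM1 hC1 θ η hθ0 hη).and
    ((ev_exp_sqrt (D + D * M + 2 * B1 * M) (2 * M ^ 2 * g / η)).and
    (eventually_ge_atTop (max s1 (((C * (g * M + 1) + 2 * (g + 1) : ℕ) : ℝ) ^ 2)))))
  obtain ⟨X₀, hX₀⟩ := eventually_atTop.1 hev
  refine ⟨σ, hσ, hσ2, D + 2 * B1, max X₀ 2, fun F Y H W N hSys hH hF hW1 hN1 hWNH hps hpW => ?_⟩
  obtain ⟨⟨b, hb1, hb2, hb3, hb4, hb5, hb6, hb7, hb8, hb9, hb10, hb11⟩, hbN, hbs⟩ :=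
    hX₀ H ((le_max_left _ _).trans hH)
  simp only [Function.comp] at hb3 hb4 hb5 hb6 hb7 hb8 hb9 hb10 hb11 hbN hbs
  rw [← hD] at hb11
  obtain ⟨l, hl⟩ : ∃ l, l = Real.log H := ⟨_, rfl⟩
  rw [← hl] at hb3 hb4 hb5 hb6 hb7 hb8 hb9 hb10 hb11 hbN hbs hps hpW ⊢
  have hH2 : 2 ≤ H := (le_max_right _ _).trans hH
  have hH0 : (0 : ℝ) < H := by
    have : 0 < H := by omega
    exact_mod_cast this
  have hHe : Real.exp l = H := by rw [hl, Real.exp_log hH0]
  have hl0 : 0 < l := by linarith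
  have hl1 : 1 ≤ l := by linarith
  obtain ⟨b₀, hb₀⟩ : ∃ b₀ : ℕ, b₀ = 2 * M * b := ⟨_, rfl⟩
  rw [← hb₀] at hb3 hb5 hb11
  have hbpos : 0 < b := by
    have h1 : (0 : ℝ) < b := lt_of_lt_of_le (by positivity) hb2
    exact_mod_cast h1
  have hbb₀ : b ≤ b₀ := by
    rw [hb₀]
    exact Nat.le_mul_of_pos_left b (by omega)
  have hb0 : 0 < b₀ := by omega
  have hbr : (0 : ℝ) < b₀ := by exact_mod_cast hb0
  have hbbr : (b : ℝ) ≤ b₀ := by exact_mod_cast hbb₀
  have hsq0 : 0 < Real.sqrt l := Real.sqrt_pos.2 hl0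
  have hsq1 : 1 ≤ Real.sqrt l := Real.one_le_sqrt.2 (by linarith)
  have hlog2 : 0.6931471803 < Real.log 2 := Real.log_two_gt_d9
  have hlog20 : 0 < Real.log 2 := by linarith
  -- the level `z`
  have hy1 : 1 ≤ l / (8 * C * b₀ * Real.log 2) := aux9 C b₀ _ l hCr hbr hsq1 hb3
  obtain ⟨J, hJ1, hJ2⟩ := exists_nat_pow_near hy1 (by norm_num : (1 : ℝ) < 2)
  rw [le_div_iff₀ (by positivity)] at hJ1
  rw [div_lt_iff₀ (by positivity)] at hJ2
  obtain ⟨z, hz⟩ : ∃ z : ℕ, z = 2 ^ 2 ^ J := ⟨_, rfl⟩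
  have hzr : (z : ℝ) = (2 : ℝ) ^ 2 ^ J := by rw [hz]; push_cast; rfl
  have hlz : Real.log z = 2 ^ J * Real.log 2 := by
    rw [hzr, Real.log_pow]; push_cast; rfl
  have hz2 : 2 ≤ z := by
    rw [hz]
    calc 2 = 2 ^ 1 := rfl
      _ ≤ 2 ^ 2 ^ J := Nat.pow_le_pow_right (by norm_num) Nat.one_le_two_pow
  have hz0 : (0 : ℝ) < z := by
    have : 0 < z := by omega
    exact_mod_cast this
  have hz1' : 8 * (C : ℝ) * b₀ * Real.log z ≤ l := by rw [hlz]; linarith
  have hz2' : l < 16 * (C : ℝ) * b₀ * Real.log z := by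
    rw [hlz]
    rw [pow_succ] at hJ2
    linarith
  have hlz0 : 0 < Real.log z := by rw [hlz]; positivity
  have hsz : Real.sqrt l < Real.log z := aux11 C b₀ _ _ l hCr hbr hb3 hz2'
  have hez : Real.exp (Real.sqrt l) < z := by
    rw [← Real.exp_log hz0]
    exact Real.exp_lt_exp.2 hsz
  have hlzl : Real.log z ≤ θ * l / 2 := aux_z θ b _ l C b₀ hCr1 hb2 hθ0 hbbr hlz0.le hz1'
  have hR1z : R1 + (2 * g + 2) ≤ z := by
    have : ((R1 + (2 * g + 2) : ℕ) : ℝ) ≤ z := hb8.trans hez.le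
    exact_mod_cast this
  -- the level `R`
  obtain ⟨R, hR⟩ : ∃ R : ℕ, R = ⌊Real.exp (θ * l)⌋₊ := ⟨_, rfl⟩
  have hRle : (R : ℝ) ≤ Real.exp (θ * l) := by
    rw [hR]
    exact Nat.floor_le (Real.exp_pos _).le
  have hRge : Real.exp (θ * l / 2) ≤ R := by
    have e1 : Real.exp (θ * l) < (R : ℝ) + 1 := by rw [hR]; exact Nat.lt_floor_add_one _
    have e2 : θ * l = θ * l / 2 + θ * l / 2 := by ring
    rw [e2, Real.exp_add] at e1
    refine aux3 _ _ e1 ?_
    have := Real.add_one_le_exp (θ * l / 2)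
    linarith
  have hzR : z ≤ R := by
    have : (z : ℝ) ≤ R := by
      rw [← Real.exp_log hz0]
      exact (Real.exp_le_exp.2 hlzl).trans hRge
    exact_mod_cast this
  have hR0 : (0 : ℝ) < R := lt_of_lt_of_le (Real.exp_pos _) hRge
  have hlR1 : θ * l / 2 ≤ Real.log R := by
    rw [Real.le_log_iff_exp_le hR0]
    exact hRge
  have hlR2 : Real.log R ≤ θ * l := by
    rw [Real.log_le_iff_le_exp hR0]
    exact hRle
  have hθl : θ * l ≤ l := by
    calc θ * l ≤ 1 * l := by gcongr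
      _ = l := one_mul l
  have hlR3 : Real.log R ≤ l := hlR2.trans hθl
  have hlR0 : 0 < Real.log R := lt_of_lt_of_le (by positivity) hlR1
  have hRH : R ≤ H := by
    have : (R : ℝ) ≤ H := by
      rw [← hHe]
      exact hRle.trans (Real.exp_le_exp.2 hθl)
    exact_mod_cast this
  have hRδ : (R : ℝ) ≤ (H : ℝ) ^ δ := by
    rw [Real.rpow_def_of_pos hH0, ← hl]
    refine hRle.trans (Real.exp_le_exp.2 ?_)
    have : θ * l ≤ δ * l := by
      gcongr
      linarith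
    linarith
  -- the modulus
  have hWz : ∀ p : ℕ, p.Prime → p ∣ W → p ≤ z := by
    intro p hp hpd
    have e1 : l ≤ l ^ (2 * B' * (g + 1)) := le_self_pow₀ hl1 (by rw [hB']; omega)
    have : (p : ℝ) ≤ z := (hpW p hp hpd).trans (e1.trans (hb4.trans hez.le))
    exact_mod_cast this
  obtain ⟨s, hs'⟩ : ∃ s : ℝ, s = l ^ (1 - σ) := ⟨_, rfl⟩
  rw [← hs'] at hps
  have hs1s : s1 ≤ l := (le_max_left _ _).trans hbs
  have hs2s : ((C * (g * M + 1) + 2 * (g + 1) : ℕ) : ℝ) ≤ s := by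
    have e1 : ((C * (g * M + 1) + 2 * (g + 1) : ℕ) : ℝ) ^ 2 ≤ l := (le_max_right _ _).trans hbs
    have e2 : l ^ (1 / 2 : ℝ) ≤ s := by
      rw [hs']
      apply Real.rpow_le_rpow_of_exponent_le hl1
      linarith
    refine le_trans ?_ e2
    rw [← Real.sqrt_eq_rpow]
    exact Real.le_sqrt_of_sq_le e1
  have hWp : ∀ p : ℕ, p.Prime → p ≤ C * (g * M + 1) + 2 * (g + 1) → p ∣ W := by
    intro p hp hpl
    apply hps p hp
    refine le_trans ?_ hs2s
    exact_mod_cast hpl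
  have hSys0 : Sys0 g F := hSys.toSys0
  -- the weights
  obtain ⟨lam, hlam1, hlamb, hsupp, hGlo, hGup⟩ := hSel (rt F) z R (by omega) hzR
    (fun p hp => (hSys.root p hp).1)
  obtain ⟨G, hG⟩ : ∃ G, G = qfr (rt F) R lam := ⟨_, rfl⟩
  rw [← hG] at hGup hGlo
  have hPR0 : 0 < PR (rt F) z R := PR_pos hSys0 z R
  have hG0 : 0 < G := lt_of_lt_of_le hPR0 hGlo
  obtain ⟨Vz, hV⟩ : ∃ Vz, Vz = V F W z := ⟨_, rfl⟩
  have hV0 : 0 < Vz := hV ▸ V_pos hSys0 W z
  have hVG0 : 0 < Vz * G := by positivity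
  have hVlow : 1 / Real.log z ^ B1 ≤ Vz := by
    rw [hV]
    exact (hR1 z (by omega)).trans (V_low hSys0 W z (fun p hp hpl => hWp p hp (by omega)))
  have hGlow : 1 / Real.log R ^ B1 ≤ G :=
    (hR1 R (by omega)).trans ((PR_low hSys0 z R (by omega)).trans hGlo)
  have hlz2 : Real.log z ≤ l := hlzl.trans (by linarith)
  have hVinv : 1 / Vz ≤ l ^ B1 := by
    have e1 : 1 / Vz ≤ Real.log z ^ B1 := aux13 Vz _ B1 hV0 hlz0 hVlow
    exact e1.trans (pow_le_pow_left₀ hlz0.le hlz2 B1)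
  have hGinv : 1 / G ≤ l ^ B1 := by
    have e1 : 1 / G ≤ Real.log R ^ B1 := aux13 G _ B1 hG0 hlR0 hGlow
    exact e1.trans (pow_le_pow_left₀ hlR0.le hlR3 B1)
  have hVGinv : 1 / (Vz * G) ≤ l ^ (2 * B1) := by
    have e1 : 1 / (Vz * G) = (1 / Vz) * (1 / G) := by rw [one_div_mul_one_div]
    rw [e1, two_mul, pow_add]
    have e3 : 0 ≤ 1 / G := by positivity
    gcongr
  have hsupp' : ∀ d, lam d ≠ 0 → 1 ≤ d ∧ d ≤ R ∧ ∀ p : ℕ, p.Prime → p ∣ d → z < p := by
    intro d hd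
    have := hsupp d hd
    exact ⟨this.1, this.2.1, this.2.2.2⟩
  refine ⟨nuM F W z R lam (Vz * G), ?_, ?_, ?_, ?_⟩
  · intro n
    unfold nuM
    split_ifs <;> positivity
  · -- the pointwise bound
    intro n hn
    obtain ⟨hFn0, hFn⟩ := hF n hn
    have hpos : (0 : ℝ) ≤ l ^ (D + 2 * B1) := by positivity
    unfold nuM
    split_ifs with hr
    · rw [ds_eq R lam (fun d hd => ⟨(hsupp d hd).1, (hsupp d hd).2.1⟩) _ hFn0]
      obtain ⟨k, hk1, hk2⟩ := div_bound R z lam (fun d hd => by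
          have := hsupp d hd
          exact ⟨this.2.2.1, this.1, this.2.1, this.2.2.2⟩) hlamb (F (n : ℤ)).natAbs
          (Int.natAbs_pos.2 hFn0)
      have hk : k ≤ 16 * C * g * b₀ := by
        have e0 : (F (n : ℤ)).natAbs ≤ H ^ g := by
          have : ((F (n : ℤ)).natAbs : ℤ) ≤ ((H ^ g : ℕ) : ℤ) := by
            rw [Int.natCast_natAbs]
            push_cast
            exact hFn
          exact_mod_cast this
        have e1 : (z : ℝ) ^ k ≤ (H : ℝ) ^ g := by exact_mod_cast hk1.trans e0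
        have e2 := Real.log_le_log (by positivity) e1
        rw [Real.log_pow, Real.log_pow, ← hl] at e2
        have e4 : (k : ℝ) ≤ 16 * C * g * b₀ := aux_k g k C b₀ _ l hlz0 hg0 e2 hz2'
        exact_mod_cast e4
      have e5 : (4 : ℝ) ^ k ≤ l ^ D := by
        calc (4 : ℝ) ^ k ≤ 4 ^ (16 * C * g * b₀) := pow_le_pow_right₀ (by norm_num) hk
          _ = 2 ^ (32 * C * g * b₀) := by
            rw [show (4 : ℝ) = 2 ^ 2 by norm_num, ← pow_mul]
            congr 1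
            ring
          _ ≤ _ := hb11
      calc (∑ d ∈ (F (n : ℤ)).natAbs.divisors, lam d) ^ 2 / (Vz * G) =
            (∑ d ∈ (F (n : ℤ)).natAbs.divisors, lam d) ^ 2 * (1 / (Vz * G)) := by
            rw [mul_one_div]
        _ ≤ l ^ D * l ^ (2 * B1) := by
            have := hk2.trans e5
            have e6 : 0 ≤ 1 / (Vz * G) := by positivity
            gcongr
        _ = _ := by rw [← pow_add]
    · exact hpos
  · -- the lower bound
    intro n hn hsm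
    have hnu : nuM F W z R lam (Vz * G) n = 1 / (Vz * G) := by
      unfold nuM
      rw [if_pos]
      · have e1 : ds R lam (F (n : ℤ)) = 1 := by
          unfold ds
          rw [sum_eq_single 1]
          · exact hlam1
          · intro d hd hd1
            by_contra hne
            obtain ⟨p, hp, hpd⟩ := Nat.exists_prime_and_dvd hd1
            rw [mem_filter, mem_Icc] at hd
            have h6 : p ≤ R := (Nat.le_of_dvd (by omega) hpd).trans hd.1.2
            refine hsm p hp ?_ ((Int.natCast_dvd_natCast.2 hpd).trans hd.2)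
            refine le_trans ?_ hRδ
            exact_mod_cast h6
          · intro h7
            exfalso
            apply h7
            rw [mem_filter, mem_Icc]
            refine ⟨⟨le_rfl, by omega⟩, by simp⟩
        rw [e1, one_pow]
      · intro p hp
        rw [mem_PS] at hp
        apply hsm p hp.2.1
        refine le_trans ?_ hRδ
        exact_mod_cast hp.1.2.trans hzR
    rw [hnu, V_split' F W R H (fun p hp hpd => (hWz p hp hpd).trans hzR) hRH, V_split' F W z R hWz hzR, ← hV]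
    refine ⟨?_, ?_⟩
    swap
    · have e1 : PR (rt F) R H ≤ 1 := by
        unfold PR
        exact prod_le_one (fun p hp => (fac_pos _ _ (hSys.root p (mem_filter.1 hp).2).2).le)
          (fun p _ => fac_le_one _ _)
      have e2 : 0 < PR (rt F) R H := PR_pos hSys0 R H
      rw [one_div, inv_mul_le_iff₀ hVG0, mul_one]
      calc Vz * PR (rt F) z R * PR (rt F) R H ≤ Vz * PR (rt F) z R * 1 := by gcongr
        _ = Vz * PR (rt F) z R := mul_one _
        _ ≤ Vz * G := by gcongr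
    apply aux_v Vz G cM CS _ _ hV0 hG0 hCS hPR0 hcM hGup
    apply PR_mer hSys0 R H (by omega)
    apply hMer R H (by omega) hRH
    have e1 : 2 / θ * (θ * l / 2) = l := by field_simp
    calc Real.log H = 2 / θ * (θ * l / 2) := by rw [e1, hl]
      _ ≤ max 1 (2 / θ) * Real.log R := by
        gcongr
        exact le_max_right _ _
  · -- correlations
    intro m hm t hinj ht b' M₀ L hL hwin
    refine le_trans ?_ hηη
    have hmM : m ≤ M := hm.trans hMM
    have hmr : (m : ℝ) ≤ M := by exact_mod_cast hmM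
    have hLe : Real.exp (l / 2) ≤ L := by
      refine le_trans (le_of_eq ?_) hL
      rw [Real.rpow_def_of_pos hH0, ← hl]
      congr 1
      ring
    have hL0 : (0 : ℝ) < L := lt_of_lt_of_le (Real.exp_pos _) hLe
    rw [sum_nuM]
    have hloc := hl₀ m s W N H (by rw [← hl]; exact (hs1m m hmM).trans hs1s) (by
      rw [← hl, hs']
      apply Real.rpow_le_rpow_of_exponent_le hl1
      have := hσm m hmM
      linarith) hW1 hN1 hps hWNH F hSys t b' hinj ht z
    rw [← hV] at hloc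
    obtain ⟨Vu, hVu⟩ : ∃ Vu, Vu = ∏ p ∈ PS W z, (1 - (rhoT F W b' t p : ℝ) / p) := ⟨_, rfl⟩
    rw [← hVu] at hloc
    have hVu0 : 0 ≤ Vu := aux6 Vu (Vz ^ m) η hloc hη1 (by positivity)
    have hρT : ∀ t ∈ TT R lam, (rs (rt F) (Dl t) : ℝ) ≤ (2 : ℝ) ^ b := by
      intro t ht
      have e1 := rs_bound g (rt F) (fun p hp => (hSys.root p hp).1) (Dl t)
      have e2 := omega_bound (fun d hd => (hsupp' d hd).2.2) ht
      have e3 : g * (Dl t).primeFactors.card ≤ b := by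
        apply exp_small g C M b _ θ (Real.log z) l (Real.log R) hM1 hC1 hθ0 hθ1 hlz0 _ hlR2
          (by rw [← hb₀]; exact hz2')
        have e4 : (z : ℝ) ^ (Dl t).primeFactors.card ≤ (R : ℝ) ^ 2 := by exact_mod_cast e2
        have e5 := Real.log_le_log (by positivity) e4
        rw [Real.log_pow, Real.log_pow] at e5
        exact_mod_cast e5
      have e6 : rs (rt F) (Dl t) ≤ 2 ^ b := by
        refine e1.trans ?_
        rw [← pow_mul]
        exact Nat.pow_le_pow_right (by norm_num) e3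
      exact_mod_cast e6
    have hcorr := corr m R z lam (by omega) hsupp' hlamb (fun d => (rs (rt F) d : ℝ)) ((2 : ℝ) ^ b)
      (by positivity) (fun _ _ => Nat.cast_nonneg _) hρT
      (fun x => if ∀ i j, i ≠ j → Nat.Coprime (Dl (x i)) (Dl (x j)) then cn F W z b' M₀ L t x else 0)
      (L * Vu) ((1 / 2 : ℝ) ^ b₀)
      (((2 : ℝ) ^ b) ^ m * ((2 : ℝ) ^ 2 ^ J) ^ (C * b₀)) (by positivity) (by positivity) (by positivity)
      (by
        intro x hx hcop
        rw [hVu]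
        subst hz
        rw [if_pos hcop]
        exact cnt_cop' h4 C b₀ W J m R F hSys.per t b' M₀ L lam ((2 : ℝ) ^ b)
          (fun d hd => (hsupp' d hd).2.2) (fun d hd => (hsupp d hd).2.2.1) hWz hρT
          (fun D a hD hDp => hC g m b₀ W (by
            refine le_trans ?_ (hb1.trans hbb₀)
            gcongr) hW1 (fun p hp hpC => hWp p hp (hpC.trans (le_trans (by gcongr) (Nat.le_add_right _ _))))
            F hSys0 t b' J D a M₀ L hD hDp) x hx hcop)
      (by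
        intro x hx hcop
        exact if_neg hcop)
    rw [← qfr_eq, ← hG] at hcorr
    have hRX2 : (R : ℝ) ^ (2 * m) ≤ Real.exp (l / 16) := by
      calc (R : ℝ) ^ (2 * m) ≤ Real.exp (θ * l) ^ (2 * m) := pow_le_pow_left₀ hR0.le hRle _
        _ = Real.exp ((2 * m : ℕ) * (θ * l)) := by rw [Real.exp_nat_mul]
        _ ≤ Real.exp (l / 16) := by
          apply Real.exp_le_exp.2
          exact aux_R θ l M C g m hmr hMr hCr1 hg0 hl0 hθ1 hθ0
    have hEe : ((2 : ℝ) ^ 2 ^ J) ^ (C * b₀) ≤ Real.exp (l / 8) := by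
      rw [← hzr, pow_eq_exp z hz0]
      apply Real.exp_le_exp.2
      push_cast
      linarith
    have hlR3' : 0 ≤ Real.log R := hlR0.le
    have h2b1 : (1 : ℝ) ≤ 2 ^ b := one_le_pow₀ (by norm_num)
    have hfin := final_real m M hmM L Vz G Vu ((2 : ℝ) ^ b * (1 + Real.log R) ^ 3) _ z ((1 / 2 : ℝ) ^ b₀)
      (((2 : ℝ) ^ b) ^ m * ((2 : ℝ) ^ 2 ^ J) ^ (C * b₀)) ((R : ℝ) ^ (2 * m)) η
      ((2 : ℝ) ^ b * ((1 + l) ^ 3 * l ^ B1)) (l ^ (2 * B1)) hL0 hV0 hG0 hη
      hη1 hz0 (by positivity) (by positivity) (by positivity) (by positivity) hloc hcorr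
      (by
        rw [div_eq_mul_one_div, mul_assoc]
        have e3 : 0 ≤ 1 / G := by positivity
        gcongr)
      (by
        have e1 : (1 : ℝ) ≤ (1 + l) ^ 3 := one_le_pow₀ (by linarith)
        have e2 : (1 : ℝ) ≤ l ^ B1 := one_le_pow₀ hl1
        exact one_le_mul_of_one_le_of_one_le h2b1 (one_le_mul_of_one_le_of_one_le e1 e2))
      hVGinv (one_le_pow₀ (by linarith))
      (by
        refine le_trans ?_ hb6
        have e1 : 1 / (z : ℝ) ≤ Real.exp (-Real.sqrt l) := by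
          rw [Real.exp_neg, one_div]
          exact inv_anti₀ (Real.exp_pos _) hez.le
        gcongr)
      hb5
      (by
        refine le_trans ?_ hb7
        have e0 : ((2 : ℝ) ^ b) ^ m ≤ ((2 : ℝ) ^ b) ^ M := pow_le_pow_right₀ h2b1 hmM
        have e1 : (R : ℝ) ^ (2 * m) * (((2 : ℝ) ^ b) ^ m * ((2 : ℝ) ^ 2 ^ J) ^ (C * b₀)) / L ≤
            Real.exp (-(l / 4)) * ((2 : ℝ) ^ b) ^ M := by
          rw [div_le_iff₀ hL0]
          calc (R : ℝ) ^ (2 * m) * (((2 : ℝ) ^ b) ^ m * ((2 : ℝ) ^ 2 ^ J) ^ (C * b₀)) ≤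
                Real.exp (l / 16) * (((2 : ℝ) ^ b) ^ M * Real.exp (l / 8)) := by gcongr
            _ = (Real.exp (l / 16) * Real.exp (l / 8)) * ((2 : ℝ) ^ b) ^ M := by ring
            _ = Real.exp (3 / 16 * l) * ((2 : ℝ) ^ b) ^ M := by
                rw [← Real.exp_add]
                congr 2
                ring
            _ ≤ Real.exp (-(l / 4) + l / 2) * ((2 : ℝ) ^ b) ^ M := by
                gcongr
                linarith
            _ = Real.exp (-(l / 4)) * ((2 : ℝ) ^ b) ^ M * Real.exp (l / 2) := by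
                rw [Real.exp_add]
                ring
            _ ≤ Real.exp (-(l / 4)) * ((2 : ℝ) ^ b) ^ M * L := by gcongr
        calc (R : ℝ) ^ (2 * m) * (((2 : ℝ) ^ b) ^ m * ((2 : ℝ) ^ 2 ^ J) ^ (C * b₀)) / L *
              (l ^ (2 * B1)) ^ M ≤ Real.exp (-(l / 4)) * ((2 : ℝ) ^ b) ^ M * (l ^ (2 * B1)) ^ M := by
              gcongr
          _ = _ := by rw [mul_pow, mul_assoc])
    -- the tuples with a common prime factor
    obtain ⟨E, hE⟩ : ∃ E : ℕ, E = 16 * C * g * b₀ := ⟨_, rfl⟩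
    have h4E : (4 : ℝ) ^ E ≤ l ^ D := by
      calc (4 : ℝ) ^ E = 2 ^ (32 * C * g * b₀) := by
            rw [hE, show (4 : ℝ) = 2 ^ 2 by norm_num, ← pow_mul]
            congr 1
            ring
        _ ≤ _ := hb11
    have hEle : (E : ℝ) ≤ l ^ D := by
      refine le_trans ?_ h4E
      have : E ≤ 4 ^ E := (Nat.lt_pow_self (by norm_num)).le
      exact_mod_cast this
    have hkE : ∀ k : ℕ, z ^ k ≤ H ^ g → k ≤ E := by
      intro k hk
      have e1 : (z : ℝ) ^ k ≤ (H : ℝ) ^ g := by exact_mod_cast hk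
      have e2 := Real.log_le_log (by positivity) e1
      rw [Real.log_pow, Real.log_pow, ← hl] at e2
      have e4 : (k : ℝ) ≤ 16 * C * g * b₀ := aux_k g k C b₀ _ l hlz0 hg0 e2 hz2'
      rw [hE]
      exact_mod_cast e4
    have hncop := ncop_sum F W z b' M₀ L m R lam t E (fun d hd => (hsupp' d hd).2.2) (by
      intro K hK i
      obtain ⟨hFn0, hFn⟩ := hF _ (hwin K hK i)
      obtain ⟨k, hk1, hk2⟩ := tt_count R z lam (fun d hd => by
          have := hsupp d hd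
          exact ⟨this.2.2.1, this.1, this.2.1, this.2.2.2⟩) (F ((W * (K + t i) + b' : ℕ) : ℤ)) hFn0
      have e0 : (F ((W * (K + t i) + b' : ℕ) : ℤ)).natAbs ≤ H ^ g := by
        have : ((F ((W * (K + t i) + b' : ℕ) : ℤ)).natAbs : ℤ) ≤ ((H ^ g : ℕ) : ℤ) := by
          rw [Int.natCast_natAbs]
          push_cast at hFn ⊢
          exact hFn
        exact_mod_cast this
      have hkE' := hkE k (hk1.trans e0)
      have e1 : (((TT R lam).filter (fun x => (Dl x : ℤ) ∣ F ((W * (K + t i) + b' : ℕ) : ℤ))).card : ℝ) ≤ 4 ^ E :=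
        hk2.trans (pow_le_pow_right₀ (by norm_num) hkE')
      exact_mod_cast e1)
    have hbad := bad_card g W z N H b' M₀ L m F hSys t hinj hW1 hWNH hWz ht E hkE
    have hbad' : ((bdK F W z b' M₀ L t).card : ℝ) ≤ (m : ℝ) ^ 2 * (E * (g * (2 * L / z))) := by
      have e1 : ((bdK F W z b' M₀ L t).card : ℝ) ≤ (m : ℝ) ^ 2 * (E * (g * (((L / z : ℕ) : ℝ) + 1))) := by
        exact_mod_cast hbad
      refine e1.trans ?_
      have e2 : ((L / z : ℕ) : ℝ) ≤ L / z := Nat.cast_div_le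
      have e3 : (z : ℝ) ≤ L := by
        rw [← Real.exp_log hz0]
        refine (Real.exp_le_exp.2 ?_).trans hLe
        linarith
      have e4 : (1 : ℝ) ≤ L / z := by rw [le_div_iff₀ hz0]; linarith
      have e5 : ((L / z : ℕ) : ℝ) + 1 ≤ 2 * L / z := by
        have : 2 * (L : ℝ) / z = L / z + L / z := by ring
        linarith
      gcongr
    rw [mul_pow] at hfin
    have hfin' := final2 m M g D B1 hmM _ (∑ x ∈ Fintype.piFinset (fun _ : Fin m => TT R lam),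
      (∏ i, wt lam (x i)) * cn F W z b' M₀ L t x) (Vz * G) L z l E (4 ^ E)
      ((bdK F W z b' M₀ L t).card : ℝ) η hVG0 hL0 hz0 hl1 hη (by rw [mul_pow]; exact hfin) (by
        refine le_trans ?_ hncop
        rw [← sum_sub_distrib]
        refine (abs_sum_le_sum_abs _ _).trans (sum_le_sum fun x hx => ?_)
        have hw : |∏ i, wt lam (x i)| ≤ 1 := by
          rw [abs_prod]
          apply prod_le_one
          · intro i _
            exact abs_nonneg _
          · intro i _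
            unfold wt
            rw [abs_mul]
            exact mul_le_one₀ (hlamb _) (abs_nonneg _) (hlamb _)
        have hcn0 : 0 ≤ cn F W z b' M₀ L t x := Nat.cast_nonneg _
        by_cases hc : ∀ i j, i ≠ j → Nat.Coprime (Dl (x i)) (Dl (x j))
        · rw [if_pos hc, if_pos hc, sub_self, abs_zero]
        · rw [if_neg hc, if_neg hc, mul_zero, sub_zero, abs_mul, abs_of_nonneg hcn0]
          exact mul_le_of_le_one_left hcn0 hw)
      hbad' hEle h4E (by positivity) hVGinv (hbN.trans hez.le)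
    exact hfin'

end Pool.Agent.H534.NV
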