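import Pool.Agent.H534.RT.Eng
import Pool.Agent.H534.NV.Maj

/-!
# The theorem for one shape, with common differences `W d`, `W = exp ((log H)^(1-σ))`, `d ≤ X`, `X ≥ (log H)^L` arbitrary
-/

set_option autoImplicit false

open Finset

namespace Pool.Agent.H534.NV

open Pool.Agent.H602R3.DHJ
open Pool.Agent.TH423.SH (PS)
open Pool.Agent.Y727.PSP (sw sl Ind LF rp rp_pos rp_le rp_cast rp_of sum_rp LF_mono)
open Pool.Agent.Y677.RSZ hiding Sys V_pos fac_pos V_lower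
open Pool.Agent.H534.RS hiding majW classes engP
open Pool.Agent.H534.RT

/-- the modulus: the product of the primes up to `(log H)^(1-σ)` -/
noncomputable def WN (σ : ℝ) (H : ℕ) : ℕ := primorial ⌊Real.log H ^ (1 - σ)⌋₊

theorem WN_pos (σ : ℝ) (H : ℕ) : 0 < WN σ H := primorial_pos _

theorem WN_sqf (σ : ℝ) (H : ℕ) : Squarefree (WN σ H) := by
  unfold WN primorial
  exact Finset.squarefree_prod_of_pairwise_isCoprime (by
    intro a ha b hb hab
    rw [mem_coe, mem_filter] at ha hb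
    exact Nat.coprime_iff_isRelPrime.1 ((Nat.coprime_primes ha.2 hb.2).2 hab)) (by
    intro p hp
    rw [mem_filter] at hp
    exact hp.2.prime.squarefree)

theorem WN_dvd (σ : ℝ) (H : ℕ) (p : ℕ) (hp : p.Prime) : p ∣ WN σ H ↔ (p : ℝ) ≤ Real.log H ^ (1 - σ) := by
  unfold WN
  rw [hp.dvd_primorial_iff, Nat.le_floor_iff (Real.rpow_nonneg (Real.log_natCast_nonneg H) _)]

/-- the modulus is small -/
theorem WN_le (σ η : ℝ) (hσ : 0 < σ) (hη : 0 < η) : ∃ H₀ : ℕ, ∀ H : ℕ, H₀ ≤ H → (WN σ H : ℝ) ≤ (H : ℝ) ^ η := by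
  have hlog : Filter.Tendsto (fun H : ℕ => Real.log H) Filter.atTop Filter.atTop :=
    Real.tendsto_log_atTop.comp tendsto_natCast_atTop_atTop
  have h1 : Filter.Tendsto (fun H : ℕ => Real.log H ^ σ) Filter.atTop Filter.atTop :=
    (tendsto_rpow_atTop hσ).comp hlog
  obtain ⟨H₀, hH₀⟩ := Filter.eventually_atTop.1 ((h1.eventually_ge_atTop (2 / η)).and (hlog.eventually_ge_atTop 1))
  refine ⟨max H₀ 1, fun H hH => ?_⟩
  obtain ⟨h2, h3⟩ := hH₀ H ((le_max_left _ _).trans hH)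
  have hH0 : (0 : ℝ) < H := by exact_mod_cast lt_of_lt_of_le one_pos ((le_max_right _ _).trans hH)
  obtain ⟨l, hl⟩ : ∃ l : ℝ, l = Real.log H := ⟨_, rfl⟩
  rw [← hl] at h2 h3
  have hl0 : 0 < l := by linarith
  have hw0 : 0 < l ^ (1 - σ) := Real.rpow_pos_of_pos hl0 _
  have hlog4 : Real.log 4 ≤ 2 := by
    have : Real.log 4 = 2 * Real.log 2 := by
      rw [show (4 : ℝ) = 2 ^ 2 by norm_num, Real.log_pow]; push_cast; ring
    rw [this]
    linarith [Real.log_two_lt_d9]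
  have hlog40 : 0 < Real.log 4 := Real.log_pos (by norm_num)
  have h4 : (WN σ H : ℝ) ≤ (4 : ℝ) ^ ⌊l ^ (1 - σ)⌋₊ := by
    unfold WN
    rw [← hl]
    exact_mod_cast primorial_le_four_pow _
  refine h4.trans ?_
  have h5 : (⌊l ^ (1 - σ)⌋₊ : ℝ) ≤ l ^ (1 - σ) := Nat.floor_le hw0.le
  have h6 : l ^ (1 - σ) * (2 / η) ≤ l := by
    calc l ^ (1 - σ) * (2 / η) ≤ l ^ (1 - σ) * l ^ σ := by gcongr
      _ = l ^ (1 - σ + σ) := by rw [Real.rpow_add hl0]
      _ = l := by rw [sub_add_cancel, Real.rpow_one]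
  rw [Real.rpow_def_of_pos hH0, ← hl, ← Real.rpow_natCast, Real.rpow_def_of_pos (by norm_num : (0 : ℝ) < 4)]
  apply Real.exp_le_exp.2
  have h7 : 2 * l ^ (1 - σ) ≤ l * η := by
    have : l ^ (1 - σ) * (2 / η) * η ≤ l * η := by gcongr
    have e : l ^ (1 - σ) * (2 / η) * η = 2 * l ^ (1 - σ) := by field_simp
    linarith
  calc Real.log 4 * (⌊l ^ (1 - σ)⌋₊ : ℝ) ≤ 2 * l ^ (1 - σ) := by gcongr
    _ ≤ l * η := h7

/-- consequences of the numerical conditions -/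
theorem numG (x H W N' r T KV κ v : ℝ) (hx : 0 < x) (hW : 1 ≤ W) (hWH : W ≤ H ^ (1 / 16 : ℝ)) (hWx : W * x ^ 3 ≤ H)
    (hr : 1 ≤ r) (hN' : N' ≤ 1 + 2 * (r * (H / (W * x ^ 3)) * x)) (hN'0 : 0 ≤ N') (hT : 1 ≤ T) (hKV : 1 ≤ KV)
    (hκ : 0 < κ) (hv : 1 / KV ≤ v) (h1 : (10 + 100 * r) * T ≤ x) (h2 : (10 + 100 * r) / κ * KV ≤ x)
    (hH16 : 65536 ≤ H) :
    W * N' ≤ H ∧ N' + 2 ≤ H / W / 2 ∧ N' * T ≤ H / W / 4 ∧ 2 * (N' + 4) ≤ κ * (H / W * v) ∧
      H ^ (1 / 2 : ℝ) + 1 ≤ H / W / 2 := by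
  have hr0 : 0 < r := by linarith
  have hx110 : 110 ≤ x := by nlinarith
  have hx1 : 1 ≤ x := by linarith
  have hH0 : 0 < H := by linarith
  have hW0 : 0 < W := by linarith
  have hT0 : 0 < T := by linarith
  obtain ⟨Q, hQ⟩ : ∃ Q : ℝ, Q = H / W := ⟨_, rfl⟩
  obtain ⟨q, hq⟩ : ∃ q : ℝ, q = Q / x ^ 2 := ⟨_, rfl⟩
  have e1 : r * (H / (W * x ^ 3)) * x = r * q := by
    rw [hq, hQ]
    field_simp
  rw [e1] at hN'
  have hQx : x ^ 3 ≤ Q := by
    rw [hQ, le_div_iff₀ hW0]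
    linarith
  have hqx : x ≤ q := by
    rw [hq, le_div_iff₀ (by positivity)]
    calc x * x ^ 2 = x ^ 3 := by ring
      _ ≤ Q := hQx
  have hq0 : 0 < q := by linarith
  have hQq : Q = q * x ^ 2 := by
    rw [hq]
    field_simp
  rw [← hQ]
  have hrq : 110 ≤ r * q := by nlinarith
  have hN2 : N' + 5 ≤ 3 * r * q := by linarith
  have hrx : (10 + 100 * r) ≤ x := by nlinarith
  have hx2 : x ≤ x ^ 2 := le_self_pow₀ hx1 (by norm_num)
  refine ⟨?_, ?_, ?_, ?_, ?_⟩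
  · have h3 : N' ≤ Q := by
      have : 3 * r * q ≤ q * x ^ 2 := by
        rw [mul_comm]
        gcongr
        linarith
      linarith
    have h4 : N' * W ≤ H := by
      rw [hQ, le_div_iff₀ hW0] at h3
      exact h3
    linarith
  · have : 3 * r * q ≤ q * x ^ 2 / 2 := by
      have : 3 * r ≤ x ^ 2 / 2 := by nlinarith
      calc 3 * r * q ≤ x ^ 2 / 2 * q := by gcongr
        _ = _ := by ring
    linarith
  · have h3 : 3 * r * T ≤ x ^ 2 / 4 := by nlinarith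
    have h4 : N' * T ≤ 3 * r * q * T := by
      apply mul_le_mul_of_nonneg_right _ hT0.le
      linarith
    have h5 : 3 * r * q * T ≤ q * x ^ 2 / 4 := by
      calc 3 * r * q * T = (3 * r * T) * q := by ring
        _ ≤ x ^ 2 / 4 * q := by gcongr
        _ = _ := by ring
    linarith
  · have h3 : 2 * (N' + 4) ≤ 6 * r * q := by linarith
    have hKV0 : 0 < KV := by linarith
    have h4 : (10 + 100 * r) * KV ≤ κ * x := by
      rw [div_mul_eq_mul_div, div_le_iff₀ hκ] at h2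
      linarith
    have h5 : 6 * r * KV ≤ κ * x ^ 2 := by
      have : κ * x ≤ κ * x ^ 2 := by gcongr
      nlinarith
    have h6 : 6 * r ≤ κ * x ^ 2 * v := by
      calc 6 * r = (6 * r * KV) * (1 / KV) := by field_simp
        _ ≤ (κ * x ^ 2) * v := by gcongr
    have hv0 : 0 < v := lt_of_lt_of_le (by positivity) hv
    calc 2 * (N' + 4) ≤ 6 * r * q := h3
      _ ≤ (κ * x ^ 2 * v) * q := by gcongr
      _ = κ * (q * x ^ 2 * v) := by ring
      _ = _ := by rw [← hQq]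
  · obtain ⟨y, hy⟩ : ∃ y : ℝ, y = H ^ (1 / 16 : ℝ) := ⟨_, rfl⟩
    rw [← hy] at hWH
    have hy16 : y ^ 16 = H := by
      rw [hy, ← Real.rpow_natCast, ← Real.rpow_mul hH0.le]
      norm_num
    have hy8 : H ^ (1 / 2 : ℝ) = y ^ 8 := by
      rw [hy, ← Real.rpow_natCast, ← Real.rpow_mul hH0.le]
      norm_num
    have hy0 : 0 < y := by linarith
    have hy2 : 2 ≤ y := by
      rw [hy]
      calc (2 : ℝ) = (65536 : ℝ) ^ (1 / 16 : ℝ) := by
            rw [show (65536 : ℝ) = 2 ^ (16 : ℕ) by norm_num, ← Real.rpow_natCast, ← Real.rpow_mul (by norm_num)]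
            norm_num
        _ ≤ _ := Real.rpow_le_rpow (by norm_num) hH16 (by norm_num)
    rw [hy8, le_div_iff₀ (by norm_num), hQ, le_div_iff₀ hW0]
    have h3 : (1 : ℝ) ≤ y ^ 8 := one_le_pow₀ (by linarith)
    have h4 : (4 : ℝ) ≤ y ^ 7 := by
      calc (4 : ℝ) ≤ 2 ^ 7 := by norm_num
        _ ≤ y ^ 7 := by gcongr
    calc (y ^ 8 + 1) * 2 * W ≤ (y ^ 8 + y ^ 8) * 2 * y := by gcongr
      _ = 4 * y ^ 9 := by ring
      _ ≤ y ^ 7 * y ^ 9 := by gcongr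
      _ = H := by rw [← hy16]; ring

open Classical in
theorem engV (r g : ℕ) (δ κ : ℝ) (hr : 1 ≤ r) (hδ : 0 < δ) (hκ : 0 < κ) :
    ∃ (c σ : ℝ) (Lx H₀ : ℕ), 0 < c ∧ 0 < σ ∧ σ ≤ 1 / 2 ∧
    ∀ (F : ℤ → ℤ) (Y H X : ℕ) (A : Finset ℕ) (b : Fin r → ℕ), SysU g H (WN σ H) F → H₀ ≤ H →
    Real.log H ^ Lx ≤ X →
    (∀ n ∈ Ioc Y (Y + H), F (n : ℤ) ≠ 0 ∧ |F (n : ℤ)| ≤ (H : ℤ) ^ g) → A ⊆ Ioc Y (Y + H) →
    (∀ n ∈ A, ∀ p : ℕ, p.Prime → (p : ℝ) ≤ (H : ℝ) ^ δ → ¬ (p : ℤ) ∣ F (n : ℤ)) →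
    κ * (H * V F 1 H) ≤ A.card → Function.Injective b → (∀ l, 1 ≤ b l) →
    (∀ l, b l * WN σ H * X ^ 3 ≤ H) →
    ∃ D : Finset ℕ, c * X ≤ D.card ∧ ∀ d ∈ D, 1 ≤ d ∧ d ≤ X ∧
      c * (H * dW F (WN σ H) * V F (WN σ H) H ^ (r + 1)) ≤ ((solN A (WN σ H) b d).card : ℝ) := by
  have hrr : (1 : ℝ) ≤ r := by exact_mod_cast hr
  obtain ⟨M₁, hM₁⟩ : ∃ M₁ : ℕ, M₁ = Mr r + (r + 1) := ⟨_, rfl⟩
  obtain ⟨c, hc, hmaj⟩ := majV c1' Pool.Agent.Y328.RSZ.sel Pool.Agent.Y833.RSZ.CLS mer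
    g M₁ δ hδ
  obtain ⟨κ₁, hκ₁d⟩ : ∃ κ₁ : ℝ, κ₁ = κ / 2 := ⟨_, rfl⟩
  have hκ₁ : 0 < κ₁ := by rw [hκ₁d]; positivity
  obtain ⟨δ₀, hδ₀d⟩ : ∃ δ₀ : ℝ, δ₀ = c * κ₁ / (8 * 4 ^ r) := ⟨_, rfl⟩
  have hδ₀ : 0 < δ₀ := by rw [hδ₀d]; positivity
  have hδ₀2 : 8 * 4 ^ r * δ₀ ≤ c * κ₁ := by
    rw [hδ₀d]
    apply le_of_eq
    field_simp
  obtain ⟨cR, ηR, N₀, hcR, hηR, hRC⟩ := rcN r hr δ₀ hδ₀
  obtain ⟨η, hηd⟩ : ∃ η : ℝ, η = min ηR (δ₀ / 2) := ⟨_, rfl⟩
  have hη : 0 < η := by rw [hηd]; exact lt_min hηR (by positivity)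
  have hηR' : η ≤ ηR := by rw [hηd]; exact min_le_left _ _
  have hηδ : η ≤ δ₀ / 2 := by rw [hηd]; exact min_le_right _ _
  obtain ⟨η', hη', hMK⟩ := mkr r hr η hη
  obtain ⟨σ, hσ, hσ2, B, H₁, hmaj⟩ := hmaj (min η' 1) (lt_min hη' one_pos)
  obtain ⟨c₂, hc₂d⟩ : ∃ c₂ : ℝ, c₂ = cR * δ₀ := ⟨_, rfl⟩
  have hc₂ : 0 < c₂ := by rw [hc₂d]; positivity
  obtain ⟨C₁, hC₁d⟩ : ∃ C₁ : ℝ, C₁ = 2 / c + κ := ⟨_, rfl⟩
  have hC₁ : 0 < C₁ := by rw [hC₁d]; positivity
  obtain ⟨KV, hKV1, hKV⟩ := V_lower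
  -- the numerical conditions
  obtain ⟨Lx, hLx⟩ : ∃ Lx : ℕ, Lx = B * (r + 1) + 2 * g + B * Mr r + 1 := ⟨_, rfl⟩
  obtain ⟨Cs, hCs⟩ : ∃ Cs : ℝ, Cs = (10 + 100 * r) + (10 + 100 * r) / κ₁ * KV ^ (2 * g) + 4 / η' + 32 / c₂ +
    4 * N₀ + (2 * (g : ℝ) + 2) ^ 2 + 1 := ⟨_, rfl⟩
  obtain ⟨Ha, hHa⟩ := numE 1 1 δ hδ
  obtain ⟨Hb, hHb⟩ := WN_le σ (1 / 16) hσ (by norm_num)
  obtain ⟨Hf, hHf⟩ : ∃ Hf : ℕ, ∀ H : ℕ, Hf ≤ H → Cs ≤ Real.log H := by
    apply Filter.eventually_atTop.1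
    have hlog : Filter.Tendsto (fun H : ℕ => Real.log H) Filter.atTop Filter.atTop :=
      Real.tendsto_log_atTop.comp tendsto_natCast_atTop_atTop
    exact hlog.eventually_ge_atTop _
  refine ⟨min (c₂ / 24) (c₂ * κ / (16 * C₁)), σ, Lx, H₁ + Ha + Hb + Hf + 65536, by
    apply lt_min <;> positivity, hσ, hσ2, ?_⟩
  intro F Y H X A b hF hH hX hsize hAsub hArough hAcard hb hb1 hbB
  obtain ⟨hH16, hl1, ne⟩ := hHa H (by omega)
  have hW16 := hHb H (by omega)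
  have nf := hHf H (by omega)
  obtain ⟨l, hl⟩ : ∃ l : ℝ, l = Real.log H := ⟨_, rfl⟩
  obtain ⟨x, hx⟩ : ∃ x : ℝ, x = (X : ℝ) := ⟨_, rfl⟩
  obtain ⟨W, hW⟩ : ∃ W : ℕ, W = WN σ H := ⟨_, rfl⟩
  rw [← hl] at ne nf hl1 hX
  rw [← hx] at hX ⊢
  rw [← hW] at hbB hW16 ⊢
  have hl0 : 0 < l := by linarith
  have hH0 : (0 : ℝ) < H := by exact_mod_cast (show 0 < H by omega)
  have hH65 : (65536 : ℝ) ≤ H := by exact_mod_cast (show 65536 ≤ H by omega)
  have hnum : ∀ (D' : ℕ) (C' : ℝ), D' + 1 ≤ Lx → C' ≤ Cs → C' * l ^ D' ≤ x := by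
    intro D' C' h1 h2
    calc C' * l ^ D' ≤ l * l ^ D' := by
          apply mul_le_mul_of_nonneg_right (h2.trans nf) (by positivity)
      _ = l ^ (D' + 1) := by ring
      _ ≤ l ^ Lx := pow_le_pow_right₀ hl1 h1
      _ ≤ x := hX
  have hp1 : 0 ≤ (10 + 100 * (r : ℝ)) := by positivity
  have hp2 : 0 ≤ (10 + 100 * (r : ℝ)) / κ₁ * KV ^ (2 * g) := by positivity
  have hp3 : 0 ≤ 4 / η' := by positivity
  have hp4 : 0 ≤ 32 / c₂ := by positivity
  have hp5 : (0 : ℝ) ≤ 4 * N₀ := by positivity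
  have hp6 : 0 ≤ (2 * (g : ℝ) + 2) ^ 2 := by positivity
  have na := hnum (B * (r + 1)) (10 + 100 * r) (by omega) (by rw [hCs]; linarith)
  have nb := hnum (2 * g) ((10 + 100 * r) / κ₁ * KV ^ (2 * g)) (by omega) (by rw [hCs]; linarith)
  have nc := hnum (B * Mr r) (4 / η') (by omega) (by rw [hCs]; linarith)
  have nd := hnum (B * (r + 1)) (32 / c₂) (by omega) (by rw [hCs]; linarith)
  have ng := hnum 0 (4 * N₀) (by omega) (by rw [hCs]; linarith)
  rw [pow_zero, mul_one] at ng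
  have hx0 : 0 < x := lt_of_lt_of_le (by positivity) hX
  have hWpos : 0 < W := by rw [hW]; exact WN_pos σ H
  have hW0 : (0 : ℝ) < W := by exact_mod_cast hWpos
  have hW1 : (1 : ℝ) ≤ W := by exact_mod_cast hWpos
  have hbBr : ∀ l, (b l : ℝ) * W * x ^ 3 ≤ H := by
    intro l
    rw [hx]
    exact_mod_cast hbB l
  have hWx : (W : ℝ) * x ^ 3 ≤ H := by
    have h1 := hbBr ⟨0, by omega⟩
    have h2 : (1 : ℝ) ≤ b ⟨0, by omega⟩ := by exact_mod_cast hb1 _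
    have h3 : 0 ≤ (W : ℝ) * x ^ 3 := by positivity
    nlinarith
  obtain ⟨T, hT⟩ : ∃ T : ℝ, T = l ^ B := ⟨_, rfl⟩
  have hT1 : 1 ≤ T := by rw [hT]; exact one_le_pow₀ hl1
  have hTr : T ^ (r + 1) = l ^ (B * (r + 1)) := by rw [hT, ← pow_mul]
  have hTM : T ^ Mr r = l ^ (B * Mr r) := by rw [hT, ← pow_mul]
  rw [← hTr] at na nd
  rw [← hTM] at nc
  have hT1r : 1 ≤ T ^ (r + 1) := one_le_pow₀ hT1
  have hx110 : 110 ≤ x := by
    refine le_trans ?_ na
    nlinarith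
  -- the prime `N`
  obtain ⟨N, hNp, hN12, hN1, hN2⟩ := exN 4 (x / 4) (by push_cast; linarith)
  have : NeZero N := ⟨hNp.ne_zero⟩
  have hNx : (N : ℝ) ≤ x := by linarith
  have hN0 : (0 : ℝ) < N := by exact_mod_cast hNp.pos
  have hNN₀ : N₀ ≤ N := by
    have : (N₀ : ℝ) ≤ N := by linarith
    exact_mod_cast this
  obtain ⟨N', hN'⟩ : ∃ N' : ℕ, N' = 1 + 2 * ((∑ l, b l) * N) := ⟨_, rfl⟩
  have hN'1 : (∑ l, b l) * N ≤ N' := by omega
  have hN'r : (N' : ℝ) ≤ 1 + 2 * (r * (H / (W * x ^ 3)) * x) := by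
    rw [hN']
    push_cast
    have h1 : ∑ l, (b l : ℝ) ≤ r * (H / (W * x ^ 3)) := by
      calc ∑ l, (b l : ℝ) ≤ ∑ _l : Fin r, H / (W * x ^ 3) := sum_le_sum fun l _ => by
            rw [le_div_iff₀ (by positivity)]
            have := hbBr l
            linarith
        _ = _ := by rw [sum_const, card_univ, Fintype.card_fin, nsmul_eq_mul]
    gcongr
  have hF0 : Sys0 g F := hF.toSys0
  have hVpos : 0 < V F W H := V_pos hF0 W H
  have hWdvd : ∀ p : ℕ, p.Prime → (p ∣ W ↔ (p : ℝ) ≤ l ^ (1 - σ)) := by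
    intro p hp
    rw [hW, hl]
    exact WN_dvd σ H p hp
  have hgl : 2 * (g : ℝ) + 2 ≤ l ^ (1 - σ) := by
    have h1 : (2 * (g : ℝ) + 2) ^ 2 ≤ l := by
      refine le_trans ?_ nf
      rw [hCs]
      linarith
    calc 2 * (g : ℝ) + 2 ≤ Real.sqrt l := Real.le_sqrt_of_sq_le h1
      _ = l ^ (1 / 2 : ℝ) := Real.sqrt_eq_rpow l
      _ ≤ l ^ (1 - σ) := by
          apply Real.rpow_le_rpow_of_exponent_le hl1
          linarith
  have hεl : l ^ (1 - σ) ≤ l := by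
    calc l ^ (1 - σ) ≤ l ^ (1 : ℝ) := by
          apply Real.rpow_le_rpow_of_exponent_le hl1
          linarith
      _ = l := Real.rpow_one l
  have hVlow : 1 / (KV * l) ^ (2 * g) ≤ V F W H := by
    rw [hl]
    apply hKV g F W H hF0 (by omega)
    intro p hp hpg
    rw [hWdvd p hp]
    refine le_trans ?_ hgl
    exact_mod_cast hpg
  have hKVl : 1 ≤ (KV * l) ^ (2 * g) := by
    apply one_le_pow₀
    nlinarith
  obtain ⟨m1, m2, m3, m4, m5⟩ := numG x H W N' r (T ^ (r + 1)) ((KV * l) ^ (2 * g)) κ₁ (V F W H) hx0 hW1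
    hW16 hWx hrr hN'r (Nat.cast_nonneg _) hT1r hKVl hκ₁ hVlow na (by
      rw [mul_pow, ← mul_assoc]
      exact nb) hH65
  -- the windows
  have hHW : (H : ℝ) / W - 1 ≤ ((H / W : ℕ) : ℝ) := by
    have h1 := Nat.lt_div_mul_add (a := H) hWpos
    have h2 : (H : ℝ) < (H / W : ℕ) * W + W := by exact_mod_cast h1
    rw [sub_le_iff_le_add, div_le_iff₀ hW0]
    linarith
  have hHW2 : ((H / W : ℕ) : ℝ) ≤ H / W := Nat.cast_div_le
  have hHWpos : (0 : ℝ) < H / W := by positivity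
  obtain ⟨L, hL⟩ : ∃ L : ℕ, L + N' + 1 = H / W := by
    refine ⟨H / W - N' - 1, ?_⟩
    have h1 : (N' : ℝ) + 1 ≤ ((H / W : ℕ) : ℝ) := by linarith
    have h2 : N' + 1 ≤ H / W := by exact_mod_cast h1
    omega
  have hLreal : (L : ℝ) + N' + 1 = ((H / W : ℕ) : ℝ) := by exact_mod_cast hL
  have hLlow : (H : ℝ) / W / 2 ≤ L := by linarith
  have hN'0 := (Nat.cast_nonneg N' : (0 : ℝ) ≤ N')
  have hLup : (L : ℝ) ≤ H / W := by linarith
  have hL12 : (H : ℝ) ^ (1 / 2 : ℝ) ≤ L := by linarith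
  have hL0 : (0 : ℝ) < L := by
    have : 0 ≤ (H : ℝ) ^ (1 / 2 : ℝ) := by positivity
    linarith
  have hL1 : 1 ≤ L := by exact_mod_cast hL0
  obtain ⟨M₀, hM₀⟩ : ∃ M₀ : ℕ, M₀ = Y / W := ⟨_, rfl⟩
  -- the majorant
  obtain ⟨ν, hν0, hνB, hνA, hνc⟩ := hmaj F Y H W N' (by rw [hW]; exact hF) (by omega) hsize hWpos (by omega)
    (by exact_mod_cast m1) (fun p hp hpl => (hWdvd p hp).2 (by rw [hl]; exact hpl))
    (fun p hp hpl => by
      rw [← hl]
      exact ((hWdvd p hp).1 hpl).trans hεl)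
  rw [← hl, ← hT] at hνB
  have hA0 : 0 ∉ A := fun h => by
    have := hAsub h
    rw [mem_Ioc] at this
    omega
  have hνA1 : ∀ n ∈ A, c ≤ ν n * V F W H := fun n hn => (hνA n (hAsub hn) (hArough n hn)).1
  have hνA2 : ∀ n ∈ A, ν n * V F W H ≤ 1 := fun n hn => (hνA n (hAsub hn) (hArough n hn)).2
  have hνT : ∀ n ∈ A, ν n ≤ T := fun n hn => hνB n (hAsub hn)
  have hcor : ∀ b₀ < W, ∀ m ≤ M₁, ∀ t : Fin m → ℕ, Function.Injective t → (∀ i, 1 ≤ t i ∧ t i ≤ N') →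
      |(∑ K ∈ Ioc M₀ (M₀ + L), ∏ i, ν (W * (K + t i) + b₀)) / L - 1| ≤ min η' 1 := by
    intro b₀ hb₀ m hm t ht ht2
    exact hνc m hm t ht ht2 b₀ M₀ L hL12 (fun K hK i => win Y H W b₀ M₀ L N' hWpos hb₀ hM₀ hL K hK (t i)
      (ht2 i).1 (ht2 i).2)
  have hcardI : (Ioc M₀ (M₀ + L)).card = L := by rw [Nat.card_Ioc]; omega
  have hWH : ∀ p : ℕ, p.Prime → p ∣ W → p ≤ H := by
    intro p hp hpW
    have h1 := ((hWdvd p hp).1 hpW).trans hεl
    have h2 : l ≤ H := by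
      rw [hl]
      linarith [Real.log_le_sub_one_of_pos hH0]
    exact_mod_cast h1.trans h2
  -- the classes
  have hclass := classes' hF0 W H (by rw [hW]; exact WN_sqf σ H) hWH A κ C₁ hκ hC₁ (by omega)
    (by
      intro n hn p hp
      have hpp := Nat.prime_of_mem_primeFactors hp
      apply hArough n hn p hpp
      have h1 := (hWdvd p hpp).1 (Nat.dvd_of_mem_primeFactors hp)
      rw [one_mul, pow_one] at ne
      linarith) hAcard
    (by
      intro b₀ hb₀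
      have h1 := cntK A Y H W b₀ M₀ L N' 1 hWpos hb₀ hAsub hM₀ hL (by omega)
      have h2 := hcor b₀ hb₀ 1 (by omega) (fun _ => 1) (fun i j _ => Subsingleton.elim i j)
        (fun _ => ⟨le_rfl, by omega⟩)
      have h3 : ∑ K ∈ Ioc M₀ (M₀ + L), ν (W * (K + 1) + b₀) ≤ 2 * L := by
        have h4 := (abs_le.1 h2).2
        have h5 : min η' 1 ≤ 1 := min_le_right _ _
        have h6 : (∑ K ∈ Ioc M₀ (M₀ + L), ∏ i : Fin 1, ν (W * (K + (fun _ => 1 : Fin 1 → ℕ) i) + b₀)) / L ≤ 2 := by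
          linarith
        rw [div_le_iff₀ hL0] at h6
        simpa using h6
      have h4 : (((Ioc M₀ (M₀ + L)).filter (fun K => W * (K + 1) + b₀ ∈ A)).card : ℝ) * (c / V F W H) ≤ 2 * L := by
        refine le_trans ?_ h3
        calc (((Ioc M₀ (M₀ + L)).filter (fun K => W * (K + 1) + b₀ ∈ A)).card : ℝ) * (c / V F W H) =
              ∑ K ∈ (Ioc M₀ (M₀ + L)).filter (fun K => W * (K + 1) + b₀ ∈ A), c / V F W H := by
              rw [sum_const, nsmul_eq_mul]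
          _ ≤ ∑ K ∈ (Ioc M₀ (M₀ + L)).filter (fun K => W * (K + 1) + b₀ ∈ A), ν (W * (K + 1) + b₀) := by
              apply sum_le_sum
              intro K hK
              rw [mem_filter] at hK
              rw [div_le_iff₀ hVpos]
              exact hνA1 _ hK.2
          _ ≤ _ := sum_le_sum_of_subset_of_nonneg (filter_subset _ _) (fun _ _ _ => hν0 _)
      have h5 : (((Ioc M₀ (M₀ + L)).filter (fun K => W * (K + 1) + b₀ ∈ A)).card : ℝ) ≤ 2 / c * (H / W * V F W H) := by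
        rw [mul_div_assoc', div_le_iff₀ hVpos] at h4
        calc (((Ioc M₀ (M₀ + L)).filter (fun K => W * (K + 1) + b₀ ∈ A)).card : ℝ) =
              ((((Ioc M₀ (M₀ + L)).filter (fun K => W * (K + 1) + b₀ ∈ A)).card : ℝ) * c) / c := by field_simp
          _ ≤ (2 * L * V F W H) / c := by gcongr
          _ ≤ (2 * (H / W) * V F W H) / c := by gcongr
          _ = _ := by ring
      have h6 : (N' : ℝ) + 4 ≤ κ * (H / W * V F W H) := by
        rw [hκ₁d] at m4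
        have : 0 ≤ κ * (H / W * V F W H) := by positivity
        linarith
      rw [hC₁d, add_mul]
      linarith)
  obtain ⟨Bs, hBs⟩ : ∃ Bs : Finset ℕ, Bs = rich F W H A κ := ⟨_, rfl⟩
  rw [← hBs] at hclass
  have hdW : 0 < dW F W := by
    unfold dW
    apply prod_pos
    intro p hp
    exact Pool.Agent.Y814.RSZ.fac_pos _ _ (hF0.root p (Nat.prime_of_mem_primeFactors hp)).2
  have hBs0 : (0 : ℝ) < Bs.card := lt_of_lt_of_le (by positivity) hclass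
  have hBsW : ∀ b₀ ∈ Bs, b₀ < W := by
    intro b₀ hb₀
    rw [hBs] at hb₀
    unfold rich at hb₀
    rw [mem_filter, mem_range] at hb₀
    exact hb₀.1
  -- one class
  have hone : ∀ b₀ ∈ Bs, c₂ * L ≤ av (fun d : ZMod N => sg d * CC ν A W b₀ M₀ L N' b d.valMinAbs) := by
    intro b₀ hb₀
    have hb₀W := hBsW b₀ hb₀
    have hrich : κ₁ * (H / W * V F W H) ≤ ((A.filter (fun n => n % W = b₀)).card : ℝ) := by
      rw [hBs] at hb₀
      unfold rich at hb₀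
      rw [mem_filter] at hb₀
      rw [hκ₁d]
      exact hb₀.2
    obtain ⟨h1, h2⟩ := hMK N b hb hb1 (Ioc M₀ (M₀ + L)) (fun K t => ν (W * (K + t) + b₀)) T
      (by rw [← card_pos, hcardI]; omega) hT1 (fun K t => hν0 _)
      (by
        intro K hK t ht
        have := Po_bd hr b hb1 t ht
        exact hνB _ (win Y H W b₀ M₀ L N' hWpos hb₀W hM₀ hL K hK t this.1 (this.2.trans hN'1)))
      (by
        rw [div_le_iff₀ hN0]
        rw [div_mul_eq_mul_div, div_le_iff₀ hη'] at nc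
        nlinarith)
      (by
        intro m hm u hu huP
        rw [hcardI]
        refine (hcor b₀ hb₀W m (by omega) u hu (fun i => ?_)).trans (min_le_left _ _)
        have := Po_bd hr b hb1 _ (huP i)
        exact ⟨this.1, this.2.trans hN'1⟩)
    rw [hcardI] at h1 h2
    rw [hc₂d]
    exact clsP r ν A Y H W b₀ M₀ L N' N b c (V F W H) κ₁ δ₀ η cR ηR hν0 hWpos hb₀W hAsub hM₀ hL hL1
      (by omega) hN'1 hVpos hc hκ₁ hνA1 hrich m4 hδ₀ hδ₀2 hηδ hηR' hcR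
      (fun ν f hf hfb h3 h4 h5 => hRC N hNN₀ ν f hf hfb h3 h4 h5) h1 h2
  -- the differences
  have hfc := final_count (N := N) (fun d : ZMod N => ∑ b₀ ∈ Bs, sg d * CC ν A W b₀ M₀ L N' b d.valMinAbs)
    (L * Bs.card) c₂ (by positivity) hc₂
    (fun d => sum_nonneg fun b₀ _ => mul_nonneg (sg01 d).1 (CC_nonneg ν hν0 A W b₀ M₀ L N' b _))
    (by
      calc ∑ b₀ ∈ Bs, sg (0 : ZMod N) * CC ν A W b₀ M₀ L N' b (0 : ZMod N).valMinAbs ≤
            ∑ b₀ ∈ Bs, ((L : ℝ) + N') * T ^ (r + 1) :=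
            sum_le_sum fun b₀ _ => (mul_le_of_le_one_left (CC_nonneg ν hν0 A W b₀ M₀ L N' b _) (sg01 _).2).trans
              (CC_zero ν hν0 A W b₀ M₀ L N' b T (by linarith) hνT _)
        _ = Bs.card * (((L : ℝ) + N') * T ^ (r + 1)) := by rw [sum_const, nsmul_eq_mul]
        _ ≤ Bs.card * (c₂ / 4 * L * N) := by
            apply mul_le_mul_of_nonneg_left _ hBs0.le
            have h1 : (N' : ℝ) ≤ L := by
              have : (N' : ℝ) * 1 ≤ N' * T ^ (r + 1) := by gcongr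
              linarith
            have h2 : 32 * T ^ (r + 1) ≤ c₂ * x := by
              rw [div_mul_eq_mul_div, div_le_iff₀ hc₂] at nd
              linarith
            have h3 : 8 * T ^ (r + 1) ≤ c₂ * N := by
              have : c₂ * (x / 4) ≤ c₂ * N := by gcongr
              linarith
            calc ((L : ℝ) + N') * T ^ (r + 1) ≤ ((L : ℝ) + L) * T ^ (r + 1) := by gcongr
              _ = L / 4 * (8 * T ^ (r + 1)) := by ring
              _ ≤ L / 4 * (c₂ * N) := by gcongr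
              _ = _ := by ring
        _ = c₂ / 4 * (L * Bs.card) * N := by ring)
    (by
      intro d hd
      have hd0 : d.valMinAbs ≠ 0 := fun h => hd ((ZMod.valMinAbs_eq_zero d).1 h)
      have hdN : |d.valMinAbs| ≤ N := by
        have := ZMod.valMinAbs_mem_Ioc d
        rw [Set.mem_Ioc] at this
        rw [abs_le]
        constructor <;> omega
      calc ∑ b₀ ∈ Bs, sg d * CC ν A W b₀ M₀ L N' b d.valMinAbs ≤ ∑ b₀ ∈ Bs, 3 * (L : ℝ) := by
            apply sum_le_sum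
            intro b₀ hb₀
            refine (mul_le_of_le_one_left (CC_nonneg ν hν0 A W b₀ M₀ L N' b _) (sg01 _).2).trans ?_
            have h1 := CC_upper ν hν0 A W b₀ M₀ L N' N b hb hb1 hL1 (by omega) T (min η' 1) (by linarith) hνT
              (fun t ht ht2 => hcor b₀ (hBsW b₀ hb₀) (r + 1) (by omega) t ht ht2) d.valMinAbs hd0 hdN
            have h2 : min η' 1 ≤ 1 := min_le_right _ _
            have h3 : (1 + min η' 1) * (L : ℝ) ≤ 2 * L := by gcongr; linarith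
            linarith
        _ = 3 * (L * Bs.card) := by rw [sum_const, nsmul_eq_mul]; ring)
    (by
      rw [av_sum]
      calc c₂ * (L * Bs.card) = ∑ b₀ ∈ Bs, c₂ * L := by rw [sum_const, nsmul_eq_mul]; ring
        _ ≤ _ := sum_le_sum hone)
  have hpos : ∀ d : ZMod N, d ≠ 0 → c₂ / 4 * (L * Bs.card) ≤
      ∑ b₀ ∈ Bs, sg d * CC ν A W b₀ M₀ L N' b d.valMinAbs → 0 < d.valMinAbs ∧
      c₂ / 4 * (L * Bs.card) ≤ ∑ b₀ ∈ Bs, CC ν A W b₀ M₀ L N' b d.valMinAbs := by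
    intro d hd0 hd
    have hq : 0 < c₂ / 4 * (L * Bs.card) := by positivity
    rcases sg_eq d with h | h
    · simp only [h, zero_mul, sum_const_zero] at hd
      linarith
    · simp only [h.1, one_mul] at hd
      refine ⟨?_, hd⟩
      have : d.valMinAbs ≠ 0 := fun h => hd0 ((ZMod.valMinAbs_eq_zero d).1 h)
      omega
  refine ⟨(univ.filter (fun d : ZMod N => d ≠ 0 ∧ c₂ / 4 * (L * Bs.card) ≤
    ∑ b₀ ∈ Bs, sg d * CC ν A W b₀ M₀ L N' b d.valMinAbs)).image (fun d => d.valMinAbs.toNat), ?_, ?_⟩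
  · rw [card_image_of_injOn]
    · refine le_trans ?_ (hfc.trans (le_of_eq ?_))
      · calc min (c₂ / 24) (c₂ * κ / (16 * C₁)) * x ≤ c₂ / 24 * x := by
              gcongr
              exact min_le_left _ _
          _ = c₂ / 6 * (x / 4) := by ring
          _ ≤ _ := by gcongr
      · congr!
    · intro d hd d' hd' h
      rw [mem_coe, mem_filter] at hd hd'
      have h1 := (hpos d hd.2.1 hd.2.2).1
      have h2 := (hpos d' hd'.2.1 hd'.2.2).1
      simp only at h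
      apply ZMod.injective_valMinAbs
      omega
  · intro e he
    rw [mem_image] at he
    obtain ⟨d, hd, rfl⟩ := he
    rw [mem_filter] at hd
    obtain ⟨_, hd0, hd2⟩ := hd
    obtain ⟨hd3, hd1⟩ := hpos d hd0 hd2
    have he : ((d.valMinAbs.toNat : ℕ) : ℤ) = d.valMinAbs := Int.toNat_of_nonneg hd3.le
    refine ⟨by omega, ?_, ?_⟩
    · have h1 := ZMod.valMinAbs_mem_Ioc d
      rw [Set.mem_Ioc] at h1
      have h2 : d.valMinAbs.toNat ≤ N := by omega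
      have h3 : ((d.valMinAbs.toNat : ℕ) : ℝ) ≤ N := by exact_mod_cast h2
      have h4 : ((d.valMinAbs.toNat : ℕ) : ℝ) ≤ (X : ℝ) := by
        rw [← hx]
        linarith
      exact_mod_cast h4
    · have h1 := sol_ge ν A W M₀ L N' b (V F W H) hVpos hA0 hνA2 hν0 Bs hBsW d.valMinAbs
      have h0 := sol_nat A W b d.valMinAbs.toNat
      rw [he] at h0
      have h0' : ((sol A W b d.valMinAbs).card : ℝ) ≤ ((solN A W b d.valMinAbs.toNat).card : ℝ) := by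
        exact_mod_cast h0
      refine le_trans ?_ (h1.trans h0')
      have h2 : c₂ * κ / (16 * C₁) * (H * dW F W) ≤ c₂ / 4 * (L * Bs.card) := by
        calc c₂ * κ / (16 * C₁) * (H * dW F W) = c₂ / 4 * ((H / W / 2) * (κ / (2 * C₁) * (W * dW F W))) := by
              field_simp
              ring
          _ ≤ c₂ / 4 * (L * Bs.card) := by gcongr
      calc min (c₂ / 24) (c₂ * κ / (16 * C₁)) * (H * dW F W * V F W H ^ (r + 1)) ≤
            c₂ * κ / (16 * C₁) * (H * dW F W * V F W H ^ (r + 1)) := by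
              gcongr
              exact min_le_right _ _
        _ = c₂ * κ / (16 * C₁) * (H * dW F W) * V F W H ^ (r + 1) := by ring
        _ ≤ (∑ b₀ ∈ Bs, CC ν A W b₀ M₀ L N' b d.valMinAbs) * V F W H ^ (r + 1) := by
              have := h2.trans hd1
              gcongr

end Pool.Agent.H534.NV
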